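import Pool.Agent.Helper59.DY.NGbI
import Pool.Agent.Helper54.DY.NGb0
import Pool.Agent.Helper9.DY.NG2

/-!
# `F` beyond `V_2` (MP_d13a5e_al): `NGbO`
-/

set_option autoImplicit false

namespace Pool.Agent.Helper59.DY

open _root_.DY (Z1 C01 Tri rf sq Str Loc Canon Beyond Xs ORt OFA)
open Pool.Agent.Helper62.DY (RT rt_of_tri refl_O canon_neg)

variable {E : Type*} [AddCommGroup E] [Module ℝ E] {Ψ : Set E} {B : E →ₗ[ℝ] E →ₗ[ℝ] ℝ}
  {ρ φ : E →ₗ[ℝ] ℝ} {t d1 d2 x x' : E} {g x1 x2 g' x1' x2' : ℝ}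

/-- the passage to coordinates -/
theorem cf_of (X : Xs Ψ B ρ φ t d1 d2 x x' g x1 x2 g' x1' x2') (hg : 1 ≤ g) :
    Cf (-B t d1) (-B t d2) (-B d1 d2) (fun y0 y1 y2 => y0 • t + y1 • d1 + y2 • d2 ∈ Ψ) g x1 x2
      (φ d1) (φ d2) (ρ d1) (ρ d2) := by
  have hT := X.L.tri
  have hRT := rt_of_tri hT
  have hx : g • t + x1 • d1 + x2 • d2 ∈ Ψ := by
    rw [← X.e]
    exact X.L.xm
  have hBt := X.Bxt
  have hB2 := X.Bxd2
  have ho : ∀ a1 a2 : ℝ, (0 : ℝ) • t + a1 • d1 + a2 • d2 ∈ Ψ → a1 • d1 + a2 • d2 ∈ Ψ := by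
    intro a1 a2 h
    have e : (0 : ℝ) • t + a1 • d1 + a2 • d2 = a1 • d1 + a2 • d2 := by module
    rw [e] at h
    exact h
  refine ⟨hRT, hx, hg, X.p1, X.p2, X.h1, X.h2, ?_, ?_, ?_, ?_, ?_, ?_, ?_, ?_, ?_, X.le_one.1⟩
  · have := X.c.fz
    linarith
  · have := X.cR_nonneg
    rw [hBt] at this
    linarith
  · have := X.C0
    rw [hBt, hB2] at this
    have e : -φ d2 * -(g - -B t d1 * x1 - -B t d2 * x2) = -φ d2 * (-B t d1 * x1 + -B t d2 * x2 - g) := by ring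
    rw [e] at this
    exact this
  · have := X.quad_pos
    linarith
  · intro a1 a2 ha h1 h2
    have hz : Z1 a1 ∧ 1 ≤ a2 := by
      have := hRT.z2 ha h2
      exact ⟨this.2.1, this.2.2⟩
    have hn := hRT.n _ _ _ ha
    exact X.L.str_h ⟨ho _ _ ha, hz.1, Or.inr hz.2, by linarith⟩
  · intro α β hα hβ h
    refine canon_neg X.L.cxt h (α := α) (β := β) ?_ hα hβ
    rw [X.e]
    module
  · intro a1 a2 y0 y1 y2 ha hy
    exact refl_O hT (ho _ _ ha) hy
  · -- no line of the vertex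
    intro n hn h0
    have hm := (hRT.pencil n).1
    obtain ⟨u, hue⟩ : ∃ u : E, u = sq (-B t d2) n • t + (0 : ℝ) • d1 + sq (-B t d2) (n + 1) • d2 := ⟨_, rfl⟩
    have hum : u ∈ Ψ := by
      rw [hue]
      exact hm
    have hfu : φ u = 0 := by
      rw [hue, X.L.val_φ]
      linarith
    obtain ⟨α, β, e⟩ := X.L.sp u hum
    rw [hfu, zero_smul, add_zero] at e
    have hd1 : α * x1 + β * x1' = 0 := by
      have e2 : (α * g + β * g' - sq (-B t d2) n) • t + (α * x1 + β * x1') • d1 +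
          (α * x2 + β * x2' - sq (-B t d2) (n + 1)) • d2 = 0 := by
        have e3 : (α * g + β * g' - sq (-B t d2) n) • t + (α * x1 + β * x1') • d1 +
          (α * x2 + β * x2' - sq (-B t d2) (n + 1)) • d2 =
          (α • (g • t + x1 • d1 + x2 • d2) + β • (g' • t + x1' • d1 + x2' • d2)) -
          (sq (-B t d2) n • t + (0 : ℝ) • d1 + sq (-B t d2) (n + 1) • d2) := by module
        rw [e3, ← X.e, ← X.e', ← e, ← hue, sub_self]
      exact (hT.indep _ _ _ e2).2.1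
    have p1 := X.p1
    have p1' := X.p1'
    rcases X.L.cxx u hum _ _ e with (⟨h6, h7⟩ | ⟨h6, h7⟩ | ⟨h6, h7⟩) | (⟨h6, h7⟩ | ⟨h6, h7⟩ | ⟨h6, h7⟩)
    · rw [h6, h7] at hd1
      linarith
    · rw [h6, h7] at hd1
      linarith
    · have := mul_pos (by linarith : 0 < α) (by linarith : 0 < x1)
      have := mul_pos (by linarith : 0 < β) (by linarith : 0 < x1')
      linarith
    · have : α = 0 := by linarith
      have : β = -1 := by linarith
      subst_vars
      linarith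
    · have : α = -1 := by linarith
      have : β = 0 := by linarith
      subst_vars
      linarith
    · have := mul_pos (by linarith : 0 < -α) (by linarith : 0 < x1)
      have := mul_pos (by linarith : 0 < -β) (by linarith : 0 < x1')
      linarith
  · intro y0 y1 y2 z0 z1 z2 hy hz
    exact Pool.Agent.Helper54.DY.det_crd hT hx hy hz

/-- **NGb, `b2 ≥ 1/2`** -/
theorem ngb_half {be1 be2 : ℝ} (X : Xs Ψ B ρ φ t d1 d2 x x' g x1 x2 g' x1' x2')
    (rh : ORt Ψ B d1 d2 be1 be2) (h1 : 1 ≤ be1) (hf : be1 * φ d1 + be2 * φ d2 < 0) (hu : x1 * be2 ≤ x2 * be1)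
    (hb : 1 ≤ 2 * -B t d2) (hB : Beyond (-B t d2) (φ d2)) : False := by
  have hRT := rt_of_tri X.L.tri
  have hx : g • t + x1 • d1 + x2 • d2 ∈ Ψ := by
    rw [← X.e]
    exact X.L.xm
  have hg0 : 0 < g := by
    have p1 := X.p1
    have e1 := X.c.fz
    have e2 : be1 * g = x1 * -(be1 * φ d1 + be2 * φ d2) + (x2 * be1 - x1 * be2) * -φ d2 := by
      linear_combination be1 * e1
    have e3 : 0 < x1 * -(be1 * φ d1 + be2 * φ d2) := mul_pos (by linarith) (by linarith)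
    have e4 : 0 ≤ (x2 * be1 - x1 * be2) * -φ d2 := mul_nonneg (by linarith) (by linarith [X.h2])
    have e5 : 0 < be1 * g := by linarith
    exact (mul_pos_iff_of_pos_left (by linarith)).1 e5
  have hg := (hRT.z0 hx hg0).1
  have hR : (0 : ℝ) • t + be1 • d1 + be2 • d2 ∈ Ψ := by
    have e : (0 : ℝ) • t + be1 • d1 + be2 • d2 = be1 • d1 + be2 • d2 := by module
    rw [e]
    exact rh.mem
  exact ngbI _ _ _ _ _ _ _ _ _ _ _ _ _ (cf_of X hg) hB hb hR h1 hf hu

/-- **NGbO** -/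
theorem ng_bo : _root_.DY.NGbO Ψ B := by
  intro ρ φ t d1 d2 x x' g x1 x2 g' x1' x2' al1 al2 be1 be2 X O h1 hu hg hB
  rcases (rt_of_tri X.L.tri).b2z with e | e
  · exact Pool.Agent.Helper54.DY.ngb0_ofa X O h1 hu hg (by linarith)
  · exact ngb_half X O.rh h1 O.fh hu e hB

end Pool.Agent.Helper59.DY
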