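import Pool.Agent.Helper59.DY.NGbS

/-!
# `F` beyond `V_2`: the labels (MP_d13a5e_al)
-/

set_option autoImplicit false

namespace Pool.Agent.Helper59.DY

open _root_.DY (Z1 sq Str Beyond)
open Pool.Agent.Helper62.DY (RT)

/-- the inequality for the labels -/
theorem class_ineq {b1 b2 bO g x1 x2 : ℝ} (h2 : 0 < b2) (h21 : b2 < 1)
    (hn : g ^ 2 + x1 ^ 2 + x2 ^ 2 - 2 * b1 * g * x1 - 2 * b2 * g * x2 - 2 * bO * x1 * x2 = 1)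
    (hc : 0 ≤ b1 * x1 + b2 * x2 - g)
    (hA : 2 * b2 * (b1 * x1 + b2 * x2 - g) < x2 - b2 * g - bO * x1)
    (hF : 2 * b2 * (x2 - 2 * bO * x1) < g) :
    0 < b2 ^ 2 + b1 ^ 2 * (1 - 4 * b2 ^ 2) + 2 * b1 * b2 * bO * (3 - 8 * b2 ^ 2) +
      8 * b2 ^ 2 * bO ^ 2 * (1 - 2 * b2 ^ 2) := by
  obtain ⟨c, hcd⟩ : ∃ c, c = b1 * x1 + b2 * x2 - g := ⟨_, rfl⟩
  obtain ⟨A, hAd⟩ : ∃ A, A = x2 - b2 * g - bO * x1 - b2 * c := ⟨_, rfl⟩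
  rw [← hcd] at hc hA
  have hA1 : b2 * c < A := by rw [hAd]; linarith
  have hbc : 0 ≤ b2 * c := mul_nonneg h2.le hc
  have hA0 : 0 < A := by linarith
  have hp : 0 < 1 - b2 ^ 2 := by nlinarith
  obtain ⟨K, hK⟩ : ∃ K, K = b1 * (1 - 2 * b2 ^ 2) + b2 * bO * (3 - 4 * b2 ^ 2) := ⟨_, rfl⟩
  obtain ⟨Dd, hD⟩ : ∃ Dd, Dd = b1 ^ 2 + b2 ^ 2 + bO ^ 2 + 2 * bO * b1 * b2 - 1 := ⟨_, rfl⟩
  have e1 : A ^ 2 + (1 - b2 ^ 2) * c ^ 2 = (1 - b2 ^ 2) + x1 ^ 2 * Dd := by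
    rw [hAd, hcd, hD]
    linear_combination (1 - b2 ^ 2) * hn
  have e2 : b2 * A + (1 - b2 ^ 2) * c < x1 * K := by
    have h3 := mul_lt_mul_of_pos_left hF hp
    rw [hAd, hcd, hK]
    nlinarith
  have e3 : 0 < b2 * A + (1 - b2 ^ 2) * c := by
    have := mul_pos h2 hA0
    have := mul_nonneg hp.le hc
    linarith
  have e4 : b2 ^ 2 * (A ^ 2 + (1 - b2 ^ 2) * c ^ 2) ≤ (b2 * A + (1 - b2 ^ 2) * c) ^ 2 := by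
    have h4 : (b2 * A + (1 - b2 ^ 2) * c) ^ 2 - b2 ^ 2 * (A ^ 2 + (1 - b2 ^ 2) * c ^ 2) =
        (1 - b2 ^ 2) * (2 * (c * (b2 * (A - b2 * c))) + c ^ 2) := by ring
    have h5 : 0 ≤ (1 - b2 ^ 2) * (2 * (c * (b2 * (A - b2 * c))) + c ^ 2) := by
      have := mul_nonneg hc (mul_nonneg h2.le (by linarith : 0 ≤ A - b2 * c))
      exact mul_nonneg hp.le (by positivity)
    linarith
  have e5 : (b2 * A + (1 - b2 ^ 2) * c) ^ 2 < (x1 * K) ^ 2 := by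
    exact pow_lt_pow_left₀ e2 e3.le (by norm_num)
  rw [e1] at e4
  have e6 : x1 ^ 2 * (K ^ 2 - b2 ^ 2 * Dd) = (x1 * K) ^ 2 - b2 ^ 2 * (x1 ^ 2 * Dd) := by ring
  have e7 : K ^ 2 - b2 ^ 2 * Dd = (1 - b2 ^ 2) * (b2 ^ 2 + b1 ^ 2 * (1 - 4 * b2 ^ 2) +
      2 * b1 * b2 * bO * (3 - 8 * b2 ^ 2) + 8 * b2 ^ 2 * bO ^ 2 * (1 - 2 * b2 ^ 2)) := by
    rw [hK, hD]
    ring
  have e8 : 0 < b2 ^ 2 * (1 - b2 ^ 2) := by positivity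
  have e9 : 0 < x1 ^ 2 * (K ^ 2 - b2 ^ 2 * Dd) := by
    rw [e6]
    nlinarith
  have e10 : 0 < K ^ 2 - b2 ^ 2 * Dd := by
    by_contra hcon
    have := mul_nonpos_of_nonneg_of_nonpos (sq_nonneg x1) (not_lt.1 hcon)
    linarith
  rw [e7] at e10
  exact (mul_pos_iff_of_pos_left hp).1 e10


end Pool.Agent.Helper59.DY
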