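import Pool.Agent.Helper59.DY.NGbR

/-!
# Real inequalities for `F` beyond `V_2`, third part (MP_d13a5e_al)
-/

set_option autoImplicit false

namespace Pool.Agent.Helper59.DY

/-- `(2, 5, 3)` -/
theorem gold_num {l g x1 ζ : ℝ} (hl : l ^ 2 = l + 1) (hl0 : 0 < l) (hx1 : 1 ≤ x1) (hζ : 1 ≤ ζ)
    (hN : g ^ 2 + x1 ^ 2 + (x1 + ζ) ^ 2 - l * g * (x1 + ζ) - x1 * (x1 + ζ) = 1)
    (h1 : 0 < l * g - (l - 1) * (x1 + ζ) - x1) (h2 : x1 < (2 - l) * (g + x1 + ζ)) (h3 : 2 * g ≤ l * (x1 + ζ))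
    (hF : l * ζ < g) : 2 < g ∧ l * g - l ^ 2 * ζ < x1 := by
  have hl1 : 1.618 < l := by nlinarith
  have hl2 : l < 1.6181 := by nlinarith
  have hg0 : 0 < g := by
    have := mul_pos hl0 (by linarith : 0 < ζ)
    linarith
  have h4 : (2 * l - 2) * g ≤ x1 + ζ := by
    have e : (l - 1) * (2 * g) ≤ (l - 1) * (l * (x1 + ζ)) := mul_le_mul_of_nonneg_left h3 (by linarith)
    have e2 : (l - 1) * (l * (x1 + ζ)) = x1 + ζ := by linear_combination (x1 + ζ) * hl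
    linarith
  have h5 : x1 + ζ < (3 - l) * g := by
    -- `l (x1 + ζ) < l g + ζ` and `l ζ < g`
    have e1 : l * (l * (x1 + ζ)) < l * (l * g + ζ) := mul_lt_mul_of_pos_left (by linarith) hl0
    have e2 : l * (l * (x1 + ζ)) < (l + 2) * g := by
      have : l * (l * g + ζ) = l ^ 2 * g + l * ζ := by ring
      rw [this, hl] at e1
      linarith
    have e3 : (2 - l) * (l * (l * (x1 + ζ))) < (2 - l) * ((l + 2) * g) := mul_lt_mul_of_pos_left e2 (by linarith)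
    have e4 : (2 - l) * (l * (l * (x1 + ζ))) = x1 + ζ := by
      linear_combination ((x1 + ζ) * (1 - l)) * hl
    have e5 : (2 - l) * ((l + 2) * g) = (3 - l) * g := by linear_combination -g * hl
    linarith
  refine ⟨?_, ?_⟩
  · by_contra hcon
    rw [not_lt] at hcon
    have e1 : 0 ≤ (x1 - 1) * (ζ - 1) := mul_nonneg (by linarith) (by linarith)
    have e2 : 0 ≤ (2 - g) * (x1 + ζ) := mul_nonneg (by linarith) (by linarith)
    have e3 : 0 ≤ (x1 + ζ - (2 * l - 2) * g) * ((3 - l) * g - (x1 + ζ)) := mul_nonneg (by linarith) (by linarith)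
    have e4 : (x1 + ζ - (2 * l - 2) * g) * ((3 - l) * g - (x1 + ζ)) =
        (l + 1) * g * (x1 + ζ) - (x1 + ζ) ^ 2 - (6 * l - 8) * g ^ 2 := by
      linear_combination (2 * g ^ 2) * hl
    rw [e4] at e3
    have e5 : g * (x1 + ζ) ≤ g * ((3 - l) * g) := mul_le_mul_of_nonneg_left h5.le hg0.le
    have e6 : (10.5 - 6.5 * l) * g ^ 2 < 0 := mul_neg_of_neg_of_pos (by linarith) (by positivity)
    nlinarith
  · have e1 : (l - 1) * g < l * ζ := by
      have : (l - 1) * x1 < (2 - l) * (g + ζ) := by linarith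
      have e2 : l * ((l - 1) * x1) < l * ((2 - l) * (g + ζ)) := mul_lt_mul_of_pos_left this hl0
      have e3 : l * ((l - 1) * x1) = x1 := by linear_combination x1 * hl
      have e4 : l * ((2 - l) * (g + ζ)) = (l - 1) * (g + ζ) := by linear_combination -(g + ζ) * hl
      linarith
    have e2 : l * ((l - 1) * g) < l * (l * ζ) := mul_lt_mul_of_pos_left e1 hl0
    have e3 : l * ((l - 1) * g) = g := by linear_combination g * hl
    have e4 : g < l ^ 2 * ζ := by linarith [(by ring : l * (l * ζ) = l ^ 2 * ζ)]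
    have e5 : (2 - l) * g < (2 - l) * (l ^ 2 * ζ) := mul_lt_mul_of_pos_left e4 (by linarith)
    have e6 : (2 - l) * (l ^ 2 * ζ) = ζ := by linear_combination (ζ * (1 - l)) * hl
    have e7 : 1 * ζ ≤ l * ζ := mul_le_mul_of_nonneg_right (by linarith) (by linarith)
    have e8 : l ^ 2 * ζ = l * ζ + ζ := by rw [hl]; ring
    linarith

/-- the norm for `(2, 4, m)` -/
theorem l2_norm {l s g x1 ζ D θ : ℝ} (hl : l ^ 2 = 2) (hD : D = g - l * ζ) (hθ : θ = s * x1 - l * D - ζ)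
    (hN : g ^ 2 + x1 ^ 2 + (ζ + s * x1) ^ 2 - l * g * (ζ + s * x1) - s * x1 * (ζ + s * x1) = 1) :
    (s ^ 2 - 2) * (D ^ 2 + l * D * ζ + θ * (l * D + ζ)) + s ^ 2 = ζ ^ 2 + θ ^ 2 := by
  have hg : g = D + l * ζ := by linarith
  have hX : s * x1 = l * D + ζ + θ := by linarith
  have h1 : s ^ 2 * g ^ 2 + (s * x1) ^ 2 + s ^ 2 * (ζ + s * x1) ^ 2 - s ^ 2 * (l * g * (ζ + s * x1)) -
      s ^ 2 * ((s * x1) * (ζ + s * x1)) = s ^ 2 := by
    linear_combination s ^ 2 * hN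
  rw [hX, hg] at h1
  linear_combination -h1 - (s ^ 2 * (D * l * ζ + D ^ 2 + ζ * θ + ζ ^ 2) - D ^ 2) * hl

/-- the vertex `t ∩ h` for `(3, 3, 3)` -/
theorem s1_num {D θ ζ : ℝ} {m : ℝ} (hm : 0 ≤ m) (hζ : 0 < ζ) (hN : θ ^ 2 - θ * ζ + ζ ^ 2 = 1) (hT : ζ ≤ 2 * θ)
    (hd : 1 ≤ D - (m + 1) * θ) : 1 < (2 * D - (m + 1) * θ) / (m + 3) + ζ / 2 := by
  have h1 : (2 + (m + 1) * θ) / (m + 3) ≤ (2 * D - (m + 1) * θ) / (m + 3) := by
    rw [div_le_div_iff_of_pos_right (by linarith)]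
    linarith
  rcases le_total 1 θ with h2 | h2
  · have h3 : 1 ≤ (2 + (m + 1) * θ) / (m + 3) := by
      rw [le_div_iff₀ (by linarith)]
      nlinarith
    linarith
  · have h3 : θ ≤ (2 + (m + 1) * θ) / (m + 3) := by
      rw [le_div_iff₀ (by linarith)]
      nlinarith
    have h4 : 1 < θ + ζ / 2 := by
      by_contra hcon
      rw [not_lt] at hcon
      have h5 : (θ + ζ / 2) ^ 2 = 1 + ζ * (2 * θ - 3 / 4 * ζ) := by linear_combination hN
      have h6 : 0 < ζ * (2 * θ - 3 / 4 * ζ) := mul_pos hζ (by linarith)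
      have h7 : 0 ≤ θ + ζ / 2 := by linarith
      nlinarith
    linarith

section tri

variable {n g γ w D : ℝ}

/-- `D ≥ 1` -/
theorem h2_D (hn : 0 < n) (hγ : 1 ≤ γ) (hg : γ < g) (hw : 0 ≤ w)
    (hN : g ^ 2 + γ ^ 2 + w ^ 2 - (n - 1) * (g * γ + g * w + γ * w) = n + 1) (hD : (n + 1) * D = g + γ + w) :
    1 ≤ D := by
  have h1 : (n + 1) * (D * (g + γ + w)) = (n + 1) * (1 + g * γ + g * w + γ * w) := by
    have : (n + 1) * (D * (g + γ + w)) = ((n + 1) * D) * (g + γ + w) := by ring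
    rw [this, hD]
    linear_combination hN
  have h2 : D * (g + γ + w) = 1 + g * γ + g * w + γ * w :=
    mul_left_cancel₀ (by linarith : n + 1 ≠ 0) h1
  have h3 : 0 ≤ (g - 1) * (γ - 1) := mul_nonneg (by linarith) (by linarith)
  have h4 : 0 ≤ w * (g + γ - 1) := mul_nonneg hw (by linarith)
  have h5 : 1 * (g + γ + w) ≤ D * (g + γ + w) := by linarith
  exact le_of_mul_le_mul_right h5 (by linarith)

/-- `ζ > 0` -/
theorem h2_zeta (hn : 2 ≤ n) (hγ : 1 ≤ γ) (hg : γ < g)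
    (hN : g ^ 2 + γ ^ 2 + w ^ 2 - (n - 1) * (g * γ + g * w + γ * w) = n + 1)
    (hT : w ≤ (n - 2) * g + (n - 1) * γ) : γ * w < g ^ 2 - 1 := by
  by_contra hcon
  rw [not_lt] at hcon
  obtain ⟨q, hq⟩ : ∃ q : ℝ → ℝ, ∀ y, q y = 1 * y ^ 2 + -((n - 1) * (g + γ)) * y +
      (g ^ 2 + γ ^ 2 - (n - 1) * (g * γ) - (n + 1)) :=
    ⟨fun y => 1 * y ^ 2 + -((n - 1) * (g + γ)) * y + (g ^ 2 + γ ^ 2 - (n - 1) * (g * γ) - (n + 1)), fun _ => rfl⟩
  have h0 : q w = 0 := by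
    rw [hq]
    linarith
  have hγ0 : 0 < γ := by linarith
  have hT' : γ * w ≤ γ * ((n - 2) * g + (n - 1) * γ) := mul_le_mul_of_nonneg_left hT hγ0.le
  have hc : g ^ 2 - 1 ≤ (n - 1) * γ ^ 2 + (n - 2) * (g * γ) := by linarith
  have hgγ : γ ^ 2 < g * γ := by nlinarith
  have h1 : γ ^ 2 + g ^ 2 - 1 - n * (g * γ) < 0 := by
    rcases lt_or_ge (n * γ) (2 * g) with h2 | h2
    · have h3 : γ * (n * γ - 2 * g) < 0 := mul_neg_of_pos_of_neg hγ0 (by linarith)
      linarith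
    · have h3 : (2 / n) * g ≤ γ := by
        rw [div_mul_eq_mul_div, div_le_iff₀ (by linarith)]
        linarith
      refine conv_neg (fun x => x ^ 2 + g ^ 2 - 1 - n * (g * x)) 1 (-(n * g)) (g ^ 2 - 1) (fun x => by ring)
        zero_le_one (u := 2 / n * g) (v := g) ?_ ?_ h3 hg.le
      · have hn0 : n ≠ 0 := by linarith
        have e : (2 / n * g) ^ 2 + g ^ 2 - 1 - n * (g * (2 / n * g)) = -((1 - 4 / n ^ 2) * g ^ 2) - 1 := by
          field_simp
          ring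
        rw [e]
        have : 4 / n ^ 2 ≤ 1 := by
          rw [div_le_one (by positivity)]
          nlinarith
        have := mul_nonneg (by linarith : 0 ≤ 1 - 4 / n ^ 2) (sq_nonneg g)
        linarith
      · have e : g ^ 2 + g ^ 2 - 1 - n * (g * g) = -((n - 2) * g ^ 2) - 1 := by ring
        rw [e]
        have := mul_nonneg (by linarith : 0 ≤ n - 2) (sq_nonneg g)
        linarith
  have hu : q ((g ^ 2 - 1) / γ) < 0 := by
    have e : q ((g ^ 2 - 1) / γ) = (g * γ + γ ^ 2 + g ^ 2 - 1) * (γ ^ 2 + g ^ 2 - 1 - n * (g * γ)) / γ ^ 2 := by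
      rw [hq]
      field_simp
      ring
    rw [e]
    apply div_neg_of_neg_of_pos _ (by positivity)
    exact mul_neg_of_pos_of_neg (by nlinarith) h1
  have hv : q ((n - 2) * g + (n - 1) * γ) < 0 := by
    have e : q ((n - 2) * g + (n - 1) * γ) = (3 - n) * g ^ 2 - 2 * (n - 1) * (g * γ) + γ ^ 2 - (n + 1) := by
      rw [hq]
      ring
    rw [e]
    rcases le_total n 3 with h2 | h2
    · have h3 : (3 - n) * (g ^ 2 - 1) ≤ (3 - n) * ((n - 1) * γ ^ 2 + (n - 2) * (g * γ)) :=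
        mul_le_mul_of_nonneg_left hc (by linarith)
      have h4 : (n ^ 2 - 3 * n + 4) * γ ^ 2 < (n ^ 2 - 3 * n + 4) * (g * γ) :=
        mul_lt_mul_of_pos_left hgγ (by nlinarith)
      have h5 : 0 ≤ (2 * n - 3) * (n - 2) * γ ^ 2 :=
        mul_nonneg (mul_nonneg (by linarith) (by linarith)) (sq_nonneg _)
      nlinarith
    · have h3 : 0 ≤ (n - 3) * g ^ 2 := mul_nonneg (by linarith) (sq_nonneg _)
      have hg0 : 0 < g := by linarith
      have h4 : 4 * (g * γ) ≤ 2 * (n - 1) * (g * γ) := mul_le_mul_of_nonneg_right (by linarith) (by positivity)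
      nlinarith
  have := conv_neg q 1 _ _ hq zero_le_one hu hv (by
    rw [div_le_iff₀ hγ0]
    linarith) hT
  linarith

/-- golden `2 bO` -/
theorem h2_gold (hn : n ^ 2 = n + 1) (hn0 : 0 < n) (hγ : 1 ≤ γ) (hg : γ < g) (hw : 1 ≤ w)
    (hN : g ^ 2 + γ ^ 2 + w ^ 2 - (n - 1) * (g * γ + g * w + γ * w) = n + 1)
    (hT : w ≤ (n - 2) * g + (n - 1) * γ) : False := by
  have hn1 : 1.618 < n := by nlinarith
  have hn2 : n < 1.6181 := by nlinarith
  have h1 : (2 - n) * γ < (2 - n) * g := mul_lt_mul_of_pos_left hg (by linarith)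
  have h2 : w < (2 * n - 3) * γ := by linarith
  have h3 : w < 0.2362 * γ := by nlinarith
  have h4 : 4.2 < γ := by linarith
  have hg0 : 0 < g := by linarith
  have h5 : (n - 1) * (g * γ + g * w + γ * w) ≤ 0.6181 * (g * γ + 0.2362 * γ * (g + γ)) := by
    have e1 : (g + γ) * w ≤ (g + γ) * (0.2362 * γ) := mul_le_mul_of_nonneg_left h3.le (by linarith)
    have e2 : (n - 1) * (g * γ + g * w + γ * w) ≤ 0.6181 * (g * γ + g * w + γ * w) :=
      mul_le_mul_of_nonneg_right (by linarith) (by positivity)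
    nlinarith
  have h6 : 0 ≤ (g - γ) * γ := mul_nonneg (by linarith) (by linarith)
  nlinarith [sq_nonneg (g - γ)]

/-- `g ≥ n` -/
theorem h2_gn (hn : 2 ≤ n) (hn3 : n ≤ 3) (hγ : 1 ≤ γ) (hg : γ < g) (hw : 1 ≤ w)
    (hN : g ^ 2 + γ ^ 2 + w ^ 2 - (n - 1) * (g * γ + g * w + γ * w) = n + 1)
    (hT : w ≤ (n - 2) * g + (n - 1) * γ) : n ≤ g := by
  by_contra hcon
  rw [not_le] at hcon
  have hn3' : 0 ≤ n ^ 3 - n ^ 2 - 2 * n := by
    have : n ^ 3 - n ^ 2 - 2 * n = n * ((n - 2) * (n + 1)) := by ring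
    rw [this]
    exact mul_nonneg (by linarith) (mul_nonneg (by linarith) (by linarith))
  have hq0 : ∀ y, 1 * y ^ 2 + -((n - 1) * (g + γ)) * y + (g ^ 2 + γ ^ 2 - (n - 1) * (g * γ) - (n + 1)) =
      g ^ 2 + γ ^ 2 + y ^ 2 - (n - 1) * (g * γ + g * y + γ * y) - (n + 1) := fun y => by ring
  have := conv_neg (fun y => g ^ 2 + γ ^ 2 + y ^ 2 - (n - 1) * (g * γ + g * y + γ * y) - (n + 1)) 1
    (-((n - 1) * (g + γ))) (g ^ 2 + γ ^ 2 - (n - 1) * (g * γ) - (n + 1)) (fun y => (hq0 y).symm) zero_le_one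
    (u := 1) (v := (n - 2) * g + (n - 1) * γ) (x := w) ?_ ?_ hw hT
  · linarith
  · -- `w = 1`
    refine conv_neg (fun y => g ^ 2 + y ^ 2 + 1 ^ 2 - (n - 1) * (g * y + g * 1 + y * 1) - (n + 1)) 1
      (-((n - 1) * (g + 1))) (g ^ 2 + 1 - (n - 1) * g - (n + 1)) (fun y => by ring) zero_le_one
      (u := 1) (v := g) ?_ ?_ hγ hg.le
    · refine conv_neg (fun x => x ^ 2 + 1 ^ 2 + 1 ^ 2 - (n - 1) * (x * 1 + x * 1 + 1 * 1) - (n + 1)) 1
        (-(2 * (n - 1))) (2 - (n - 1) - (n + 1)) (fun y => by ring) zero_le_one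
        (u := 1) (v := n) ?_ ?_ (by linarith) hcon.le
      · nlinarith
      · nlinarith
    · refine conv_neg (fun x => x ^ 2 + x ^ 2 + 1 ^ 2 - (n - 1) * (x * x + x * 1 + x * 1) - (n + 1)) (3 - n)
        (-(2 * (n - 1))) (-n) (fun y => by ring) (by linarith) (u := 1) (v := n) ?_ ?_ (by linarith) hcon.le
      · nlinarith
      · nlinarith
  · have e : g ^ 2 + γ ^ 2 + ((n - 2) * g + (n - 1) * γ) ^ 2 -
        (n - 1) * (g * γ + g * ((n - 2) * g + (n - 1) * γ) + γ * ((n - 2) * g + (n - 1) * γ)) - (n + 1) =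
        (3 - n) * g ^ 2 - 2 * (n - 1) * (g * γ) + γ ^ 2 - (n + 1) := by ring
    rw [e]
    have h1 : γ ^ 2 ≤ g * γ := by nlinarith
    have h2 : (2 * n - 3) * g ≤ (2 * n - 3) * (g * γ) := mul_le_mul_of_nonneg_left (by nlinarith) (by linarith)
    have h3 : (3 - n) * g ^ 2 + -(2 * n - 3) * g + -(n + 1) < 0 := by
      refine conv_neg (fun x => (3 - n) * x ^ 2 + -(2 * n - 3) * x + -(n + 1)) (3 - n)
        (-(2 * n - 3)) (-(n + 1)) (fun y => rfl) (by linarith) (u := 1) (v := n) ?_ ?_ (by linarith) hcon.le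
      · nlinarith
      · nlinarith
    linarith

/-- index `2` at the vertex -/
theorem h2_V (hn : 2 ≤ n) (hn3 : n ≤ 3) (hγ : 1 ≤ γ) (hg : γ < g) (hw : 1 ≤ w)
    (hN : g ^ 2 + γ ^ 2 + w ^ 2 - (n - 1) * (g * γ + g * w + γ * w) = n + 1)
    (hT : w ≤ (n - 2) * g + (n - 1) * γ) (hDg : D ≤ g) : 1 ≤ (D + w) / (n + 1) + (g - D) / 2 := by
  have h1 := h2_gn hn hn3 hγ hg hw hN hT
  have h2 : (g - D) / (n + 1) ≤ (g - D) / 2 := div_le_div_of_nonneg_left (by linarith) (by norm_num) (by linarith)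
  have h3 : 1 ≤ (g + w) / (n + 1) := by
    rw [le_div_iff₀ (by linarith)]
    linarith
  have h4 : (g + w) / (n + 1) = (D + w) / (n + 1) + (g - D) / (n + 1) := by ring
  linarith

end tri

end Pool.Agent.Helper59.DY
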