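import Pool.Agent.Helper59.DY.NGbK
import Pool.Agent.Helper59.DY.NGbR3

/-!
# `F` beyond `V_2`: the labels `2 b2 > 1` (MP_d13a5e_al)
-/

set_option autoImplicit false

namespace Pool.Agent.Helper59.DY

open _root_.DY (Z1 sq Str Beyond)
open Pool.Agent.Helper62.DY (RT sq_zero sq_one sq_rec cheb_id sq_grow one_le_of_all om_lim)

variable {b1 b2 bO : ℝ} {R : ℝ → ℝ → ℝ → Prop} {g x1 x2 f1 f2 r1 r2 : ℝ}

/-- the information of the vertex of `t` and an `O`-root, short form -/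
theorem Cf.vh1 (C : Cf b1 b2 bO R g x1 x2 f1 f2 r1 r2) (hb : 1 ≤ 2 * b2) {a1 a2 c η ζ : ℝ} (ha : R 0 a1 a2)
    (h1 : 0 < a1) (h2 : 0 < a2) (hf : a1 * f1 + a2 * f2 < 0) (hx1 : x1 = a1 * η) (hx2 : x2 = a2 * η + ζ)
    (hη : 0 < η) (hζ : 0 ≤ ζ) (hc : c = a1 * b1 + a2 * b2) :
    g - b2 * ζ < 1 ∨ 1 ≤ 2 * c * -(a1 * f1 + a2 * f2) := by
  rcases C.vh hb ha h1 h2 hf hx1 hx2 hη hζ hc with h3 | ⟨m, h3, h4, h5⟩ | ⟨m, h3, h4, h5, h6⟩ | ⟨h3, h4⟩
  · exact Or.inl h3
  · right
    have e1 := h3 (m + 1) (by omega) (by omega)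
    have e2 : 0 ≤ sq c m := by
      rcases Nat.eq_zero_or_pos m with hm | hm
      · rw [hm, sq_zero]
      · linarith only [h3 m hm (by omega)]
    have e3 := sq_rec c m
    have e4 : sq c (m + 2) * -(a1 * f1 + a2 * f2) ≤ 2 * c * sq c (m + 1) * -(a1 * f1 + a2 * f2) :=
      mul_le_mul_of_nonneg_right (by linarith only [e2, e3]) (by linarith only [hf])
    have e5 : sq c (m + 1) * 1 ≤ sq c (m + 1) * (2 * c * -(a1 * f1 + a2 * f2)) := by linarith only [h4, e4]
    exact le_of_mul_le_mul_left e5 (by linarith only [e1])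
  · right
    have e1 := h3 (m + 1) (by omega) (by omega)
    rw [h5] at e1
    have := mul_le_mul e1 (e1.trans h6) zero_le_one (by linarith only [e1])
    linarith only [this]
  · right
    have e1 := h4 1
    have e2 : sq c (1 + 1) = 2 * c := by
      have : sq c (1 + 1) = 2 * c * 1 - 0 := rfl
      rw [this]
      ring
    rw [e2, sq_one] at e1
    linarith only [e1]

/-- no root `(0; a1, a2)` proportional to the last coordinates of `x` -/
theorem Cf.not_par (C : Cf b1 b2 bO R g x1 x2 f1 f2 r1 r2) {a1 a2 : ℝ} (ha : R 0 a1 a2) (h1 : 0 < a1)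
    (hx : x2 * a1 = x1 * a2) : False := by
  have p1 := C.p1
  have hg := C.g1
  have hne : x1 ≠ 0 := by linarith only [p1]
  refine C.cn (a1 / x1) (-(g * a1 / x1)) (by positivity) ?_ ?_
  · have : 0 < g * a1 / x1 := by positivity
    linarith only [this]
  · have e0 : a1 / x1 * g + -(g * a1 / x1) = 0 := by ring
    have e1 : a1 / x1 * x1 = a1 := by field_simp
    have e2 : a1 / x1 * x2 = a2 := by
      field_simp
      linarith only [hx]
    rw [e0, e1, e2]
    exact ha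

/-- `(2, 5, 3)` -/
theorem Cf.gold (C : Cf b1 b2 bO R g x1 x2 f1 f2 r1 r2) (hb1 : b1 = 0) (hl : (2 * b2) ^ 2 = 2 * b2 + 1)
    (hb : 1 ≤ 2 * b2) (hbO : 2 * bO = 1) (hq : 2 * b2 < -f2) {be1 be2 : ℝ} (rh : R 0 be1 be2) (h1 : 1 ≤ be1)
    (hf : be1 * f1 + be2 * f2 < 0) (hu : x1 * be2 ≤ x2 * be1) : False := by
  have h := C.rt
  obtain ⟨s1, s2⟩ := C.slope rh h1 hf
  obtain ⟨k1, k2, k3⟩ := C.F2 hq hb rh h1 hf
  have p1 := C.p1
  have p2 := C.p2
  have hg := C.g1
  rw [hbO] at s2 k2 k3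
  have e1 : be1 ≤ be2 := by
    have := z1n (h.z2 (h.r1 _ _ _ rh) (by linarith only [s1])).2.1
    rw [hbO] at this
    linarith only [this]
  have e2 : be2 = be1 := by linarith only [s2, e1]
  have e3 : be1 = 1 := by
    have := h.n _ _ _ rh
    rw [e2, hbO] at this
    nlinarith only [s1, s2, this]
  rw [e2, e3] at rh hf hu
  -- `ζ`
  obtain ⟨ζ, hζ⟩ : ∃ ζ, ζ = x2 - x1 := ⟨_, rfl⟩
  have hx2 : x2 = x1 + ζ := by linarith only [hζ]
  have hζ1 : 1 ≤ ζ := by
    have e4 := h.r1 _ _ _ C.rx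
    have e5 : 2 * b1 * g + 2 * bO * x2 - x1 = ζ := by
      rw [hb1, hbO, hζ]
      ring
    rw [e5] at e4
    rcases (h.z0 e4 (by linarith only [hg])).2.1 with e6 | e6
    · exfalso
      exact C.not_par rh one_pos (by linarith only [hx2, e6])
    · exact e6
  obtain ⟨l, hld⟩ : ∃ l, l = 2 * b2 := ⟨_, rfl⟩
  rw [← hld] at hl hb hq k3
  have hl0 : 0 < l := by linarith only [hb]
  have hc := C.cR
  have hC0 : l * (b1 * x1 + b2 * x2 - g) < x2 - b2 * g - bO * x1 := by
    have := mul_le_mul_of_nonneg_right hq.le hc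
    have := C.C0
    linarith
  have hC1 : b1 * x1 + b2 * x2 - g < x2 - b2 * g - bO * x1 := by
    have := mul_le_mul_of_nonneg_right hb hc
    linarith only [hC0, this]
  have hb2 : b2 = l / 2 := by linarith only [hld]
  have hbO' : bO = 1 / 2 := by linarith only [hbO]
  have hn := h.n _ _ _ C.rx
  rw [hb1, hb2, hbO', hx2] at hn hC0 hC1
  rw [hb1, hb2, hx2] at hc
  obtain ⟨m1, m2⟩ := gold_num (l := l) (g := g) (x1 := x1) (ζ := ζ) hl hl0 p1 hζ1 (by linarith only [hn])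
    (by linarith only [hC0, (by ring : l * (l / 2 * (x1 + ζ)) = l ^ 2 * (x1 + ζ) / 2), congrArg (fun y => y * (x1 + ζ)) hl,
      (by ring : (l + 1) * (x1 + ζ) = l * (x1 + ζ) + (x1 + ζ))]) (by linarith only [hC1]) (by linarith only [hc]) (by
      rw [hx2] at k3
      linarith only [k3])
  have hη : 0 < x1 := by linarith only [p1]
  have hD := C.Dq (a1 := 1) (a2 := 1) (η := x1) (ζ := ζ) (by ring) (by linarith only [hx2])
  have hD2 : 0 ≤ (-f2 - 2 * b2) * ζ := mul_nonneg (by linarith only [hq, hld]) (by linarith only [hζ1])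
  rcases C.vh1 (by linarith only [hb, hld]) rh one_pos one_pos hf (η := x1) (ζ := ζ) (by ring) (by linarith only [hx2]) hη (by linarith only [hζ1]) rfl
    with v | v
  · rw [hx2] at k3
    rw [hb2] at v
    linarith only [k3, m1, v]
  · have e4 : 2 * (1 * b1 + 1 * b2) = l := by rw [hb1]; linarith only [hb2]
    rw [e4] at v
    have e5 := mul_le_mul_of_nonneg_left v hη.le
    have e6 : l * (x1 * -(1 * f1 + 1 * f2)) ≤ l * (g - 2 * b2 * ζ) := mul_le_mul_of_nonneg_left (by linarith only [hD, hD2]) hl0.le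
    rw [← hld] at e6
    have e7 : l * (g - l * ζ) = l * g - l ^ 2 * ζ := by ring
    linarith only [m2, e5, e6]

theorem gold_gt {s : ℝ} (h : s ^ 2 = s + 1) (h0 : 1 ≤ s) : 1.618 < s := by nlinarith only [h, h0]

theorem sq_one_eq (n : ℕ) : sq 1 n = n := by
  induction n using Nat.twoStepInduction with
  | zero => rw [sq_zero]; simp
  | one => rw [sq_one]; simp
  | more n h1 h2 =>
    rw [sq_rec, h1, h2]
    push_cast
    ring

/-- `(2, 4, m)` -/
theorem Cf.two (C : Cf b1 b2 bO R g x1 x2 f1 f2 r1 r2) (hb1 : b1 = 0) (hl : (2 * b2) ^ 2 = 2)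
    (hb : 1 ≤ 2 * b2) (hq : 2 * b2 < -f2) {be1 be2 : ℝ} (rh : R 0 be1 be2) (h1 : 1 ≤ be1)
    (hf : be1 * f1 + be2 * f2 < 0) : False := by
  have h := C.rt
  obtain ⟨k1, k2, k3⟩ := C.F2 hq hb rh h1 hf
  have p1 := C.p1
  have p2 := C.p2
  have hg := C.g1
  obtain ⟨s, hs⟩ : ∃ s, s = 2 * bO := ⟨_, rfl⟩
  have hls := lab_cases h.swap0.swap (by linarith only [k1] : 1 ≤ 2 * bO)
  rw [← hs] at k1 k2 k3 hls
  obtain ⟨l, hld⟩ : ∃ l, l = 2 * b2 := ⟨_, rfl⟩
  rw [← hld] at hl hb hq k3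
  have hl0 : 0 < l := by linarith only [hb]
  have hl1 : 1.414 < l := by nlinarith only [hb, hl]
  have hl2 : l < 1.4143 := by nlinarith only [hl]
  have hb2 : b2 = l / 2 := by linarith only [hld]
  have hbO : bO = s / 2 := by linarith only [hs]
  have hc := C.cR
  have hC0 : l * (b1 * x1 + b2 * x2 - g) < x2 - b2 * g - bO * x1 := by
    have := mul_le_mul_of_nonneg_right hq.le hc
    have := C.C0
    linarith
  have hC1 : b1 * x1 + b2 * x2 - g < l * (x2 - b2 * g - bO * x1) := by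
    have e1 : l * (l * (b1 * x1 + b2 * x2 - g)) < l * (x2 - b2 * g - bO * x1) := mul_lt_mul_of_pos_left hC0 hl0
    have e2 : l * (l * (b1 * x1 + b2 * x2 - g)) = l ^ 2 * (b1 * x1 + b2 * x2 - g) := by ring
    rw [e2, hl] at e1
    linarith only [hc, e1]
  have hn := h.n _ _ _ C.rx
  -- `h = (1, s)`
  have rh1 : R 0 1 s := by
    have := h.r2 _ _ _ h.e1
    have e : 2 * b2 * 0 + 2 * bO * 1 - 0 = s := by rw [hs]; ring
    rw [e] at this
    exact this
  obtain ⟨ζ, hζd⟩ : ∃ ζ, ζ = x2 - s * x1 := ⟨_, rfl⟩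
  have hx2 : x2 = s * x1 + ζ := by linarith only [hζd]
  rw [hb1, hb2, hbO] at hC0 hC1 hn
  rw [hb1, hb2] at hc
  have hζ : 0 < ζ := by
    rw [hζd]
    have e1 : l * (x2 - l / 2 * g - s / 2 * x1) = l * x2 - l ^ 2 * g / 2 - l * (s * x1) / 2 := by ring
    rw [e1, hl] at hC1
    have e2 : 0 < l * (x2 - s * x1) := by linarith only [hC1]
    exact (mul_pos_iff_of_pos_left hl0).1 e2
  have hsx : s * x1 < l * g := by
    have e1 : l * (0 * x1 + l / 2 * x2 - g) = l ^ 2 * x2 / 2 - l * g := by ring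
    rw [e1, hl] at hC0
    linarith only [hC0]
  have hlx : 2 * g ≤ l * x2 := by linarith only [hc]
  obtain ⟨D, hDd⟩ : ∃ D, D = g - l * ζ := ⟨_, rfl⟩
  obtain ⟨θ, hθd⟩ : ∃ θ, θ = s * x1 - l * D - ζ := ⟨_, rfl⟩
  have hη : 0 < x1 := by linarith only [p1]
  have hfh : 1 * f1 + s * f2 < 0 := by linarith only [k2]
  have hDq := C.Dq (a1 := 1) (a2 := s) (η := x1) (ζ := ζ) (by ring) (by linarith only [hx2])
  rw [← hld, ← hDd] at hDq
  have hDq2 : 0 < (-f2 - l) * ζ := mul_pos (by linarith only [hq]) hζ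
  have hDq3 : 0 < x1 * -(1 * f1 + s * f2) := mul_pos hη (by linarith only [hfh])
  -- `D` is a coordinate
  have hD1 : 1 ≤ D := by
    have e1 := h.r0 _ _ _ (h.r2 _ _ _ C.rx)
    have e2 : 2 * b1 * x1 + 2 * b2 * (2 * b2 * g + 2 * bO * x1 - x2) - g = D := by
      rw [hb1, ← hld, ← hs, hDd, hx2]
      linear_combination g * hl
    rw [e2] at e1
    exact (h.z0 e1 (by linarith only [hDq, hDq2, hDq3])).1
  have hN := l2_norm (l := l) (s := s) (g := g) (x1 := x1) (ζ := ζ) (D := D) (θ := θ) hl hDd hθd (by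
    rw [hx2] at hn
    linear_combination hn)
  have hθ0 : 0 ≤ θ := by
    -- `l x2 ≥ 2 g`
    rw [hx2] at hlx
    have e1 : l * (2 * g) ≤ l * (l * (s * x1 + ζ)) := mul_le_mul_of_nonneg_left hlx hl0.le
    have e2 : l * (l * (s * x1 + ζ)) = 2 * (s * x1 + ζ) := by linear_combination (s * x1 + ζ) * hl
    have e3 : l * D = l * g - 2 * ζ := by rw [hDd]; linear_combination -ζ * hl
    rw [hθd, e3]
    linarith only [e1, e2]
  have hθ1 : θ < ζ := by
    have e3 : l * D = l * g - 2 * ζ := by rw [hDd]; linear_combination -ζ * hl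
    rw [hθd, e3]
    linarith
  -- the key lemma
  have hK := C.key (by linarith only [hld, hl1]) rh1 zero_le_one (by linarith only [k1]) hfh (η := x1) (ζ := ζ) (by ring) (by linarith only [hx2]) hη hζ.le
  have hK2 : l * ζ < 2 := by
    have : 0 ≤ (-f2 - l) * ζ := hDq2.le
    rw [hb2] at hK
    linarith only [hDq2, hK]
  have hζ2 : ζ ^ 2 < 2 := by
    have e1 : (l * ζ) ^ 2 < 2 ^ 2 := pow_lt_pow_left₀ hK2 (mul_pos hl0 hζ).le (by norm_num)
    have e2 : (l * ζ) ^ 2 = 2 * ζ ^ 2 := by linear_combination ζ ^ 2 * hl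
    rw [e2] at e1
    linarith only [e1]
  have hθζ : θ ^ 2 < ζ ^ 2 := pow_lt_pow_left₀ hθ1 hθ0 (by norm_num)
  have hDD : 1 ≤ D ^ 2 := one_le_pow₀ hD1
  obtain ⟨y, hyd⟩ : ∃ y, y = l * ζ := ⟨_, rfl⟩
  have hy0 : 0 < y := by rw [hyd]; exact mul_pos hl0 hζ
  have hyζ : y ^ 2 = 2 * ζ ^ 2 := by rw [hyd]; linear_combination ζ ^ 2 * hl
  have hy2 : y * y ≤ 2 * y := mul_le_mul_of_nonneg_right (by rw [hyd]; exact hK2.le) hy0.le
  have hlDζ : y ≤ l * D * ζ := by
    have := mul_le_mul_of_nonneg_left hD1 hy0.le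
    rw [hyd] at this ⊢
    linarith only [this]
  have hpos : 0 ≤ θ * (l * D + ζ) := by
    have := mul_pos hl0 (by linarith only [hD1] : 0 < D)
    exact mul_nonneg hθ0 (by linarith only [hθ0, hθ1, this])
  obtain ⟨W, hW⟩ : ∃ W, W = D ^ 2 + l * D * ζ + θ * (l * D + ζ) := ⟨_, rfl⟩
  have hW1 : 1 + y ≤ W := by rw [hW]; linarith only [hDD, hlDζ, hpos]
  rw [← hW] at hN
  rcases hls with hs1 | hs1 | hs1 | hs1
  · rw [hs1] at hN
    linarith only [hy0, hN, hW1, sq_nonneg ζ, sq_nonneg θ]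
  · -- `s ^ 2 = 2`
    rw [hs1] at hN
    have hsl : s = l := by
      have e : (s - l) * (s + l) = 0 := by linear_combination hs1 - hl
      rcases mul_eq_zero.1 e with e1 | e1 <;> linarith
    have hN2 : ζ ^ 2 + θ ^ 2 = 2 := by linarith only [hN]
    have hζ1 : 1 < ζ := by
      by_contra hcon
      have := pow_le_one₀ hζ.le (not_lt.1 hcon) (n := 2)
      linarith only [hθζ, hN2, this]
    have hζθ : l ≤ ζ + θ := by
      by_contra hcon
      have e1 := pow_lt_pow_left₀ (not_le.1 hcon) (by linarith only [hθ0, hθ1] : 0 ≤ ζ + θ) (by norm_num : (2 : ℕ) ≠ 0)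
      have e2 : 0 ≤ ζ * θ := mul_nonneg hζ.le hθ0
      have e3 : (ζ + θ) ^ 2 = ζ ^ 2 + θ ^ 2 + 2 * (ζ * θ) := by ring
      rw [e3, hl] at e1
      linarith only [hN2, e1, e2]
    have hc1 : (1 : ℝ) = 1 * b1 + s * b2 := by
      rw [hb1, hb2, hsl]
      linarith only [hl, (by ring : l * (l / 2) = l ^ 2 / 2)]
    have hlx1 : l * x1 = l * D + ζ + θ := by
      rw [hsl] at hθd
      linarith only [hθd]
    rcases C.vh (by linarith only [hld, hl1]) rh1 one_pos (by linarith only [k1]) hfh (η := x1) (ζ := ζ) (by ring) (by linarith only [hx2]) hη hζ.le hc1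
      with v | ⟨m, v1, v2, v3⟩ | ⟨m, v1, v2, v3, v4⟩ | ⟨v1, v2⟩
    · rw [hb2] at v
      have := mul_pos hl0 hζ
      linarith only [hDd, hD1, hyd, hy0, v]
    · rw [sq_one_eq, sq_one_eq] at v2 v3
      push_cast at v2 v3
      obtain ⟨M, hM⟩ : ∃ M : ℝ, M = m := ⟨_, rfl⟩
      have hM0 : 0 ≤ M := by rw [hM]; exact Nat.cast_nonneg m
      rw [← hM] at v2 v3
      -- `(M + 1) x1 ≤ (M + 2) D`
      have w1 : (M + 1) * x1 ≤ (M + 2) * D := by
        have := mul_le_mul_of_nonneg_right v2 hη.le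
        have e := mul_le_mul_of_nonneg_left (by linarith only [hDq, hDq2] : x1 * -(1 * f1 + s * f2) ≤ D) (by linarith only [hM0] : 0 ≤ M + 2)
        linarith only [this, e]
      have w2 : (M + 1) * (ζ + θ) ≤ l * D := by
        have e1 := mul_le_mul_of_nonneg_left w1 hl0.le
        have e2 : l * ((M + 1) * x1) = (M + 1) * (l * D + ζ + θ) := by
          rw [← hlx1]
          ring
        rw [e2] at e1
        linarith only [e1]
      have w3 : (M + 1) * l ≤ (M + 1) * (ζ + θ) := mul_le_mul_of_nonneg_left hζθ (by linarith only [hM0])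
      have w4 : (M + 3) * 1 ≤ (M + 3) * ζ := mul_le_mul_of_nonneg_left hζ1.le (by linarith only [hM0])
      have w5 : (M + 1) / (M + 2 + 1) * x1 = (M + 1) * x1 / (M + 3) := by
        rw [show M + 2 + 1 = M + 3 by ring]
        ring
      rw [w5] at v3
      have w6 : (M + 3) * (g - b2 * ζ - 1) < (M + 1) * x1 := by
        have : g - b2 * ζ - 1 < (M + 1) * x1 / (M + 3) := by linarith only [v3]
        rw [lt_div_iff₀ (by linarith only [hM0])] at this
        linarith only [this]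
      have w7 := mul_lt_mul_of_pos_left w6 hl0
      have w8 : l * ((M + 3) * (g - b2 * ζ - 1)) = (M + 3) * (l * D + ζ) - (M + 3) * l := by
        rw [hb2, hDd]
        linear_combination (-(M + 3) * ζ * (1 / 2) + (M + 3) * ζ) * hl
      have w9 : l * ((M + 1) * x1) = (M + 1) * (l * D + ζ + θ) := by
        rw [← hlx1]
        ring
      rw [w8, w9] at w7
      linarith only [hl2, hM0, w2, w3, w4, w7]
    · rw [sq_one_eq] at v2
      push_cast at v2
      have : (0 : ℝ) ≤ m := Nat.cast_nonneg m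
      linarith only [v2]
    · have w1 := om_lim (c := 1) (ω := 1) (κ := -(1 * f1 + s * f2)) le_rfl (by norm_num) one_pos le_rfl (by
        intro n
        exact v2 n)
      have w2 := mul_le_mul_of_nonneg_left w1 hη.le
      have w3 : l * x1 ≤ l * D := mul_le_mul_of_nonneg_left (by linarith only [hDq, hDq2, w2]) hl0.le
      linarith only [hθ0, hθ1, hlx1, w3]
  · have hs2 := gold_gt hs1 k1
    have e1 : 0.618 * (1 + y) ≤ (s ^ 2 - 2) * W := by
      rw [hs1]
      exact mul_le_mul (by linarith only [hs2]) hW1 (by linarith only [hy0]) (by linarith only [hs2])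
    linarith only [hζ2, hθζ, hyζ, hy2, hN, hs1, hs2, e1, (by ring : y * y = y ^ 2)]
  · have e1 : 1 * (1 + y) ≤ (s ^ 2 - 2) * W := mul_le_mul (by linarith only [hs1]) hW1 (by linarith only [hy0]) (by linarith only [hs1])
    linarith only [hζ2, hθζ, hyζ, hy2, hN, hs1, e1, (by ring : y * y = y ^ 2)]

end Pool.Agent.Helper59.DY
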