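import Pool.Agent.Helper59.DY.NGbR

/-!
# Real inequalities for `F` beyond `V_2`, second part (MP_d13a5e_al)
-/

set_option autoImplicit false

namespace Pool.Agent.Helper59.DY

/-- `2 b2 = 1`, `(2 b1) ^ 2 ≥ 2` -/
theorem h1_beta {β s D η ζ : ℝ} (hβ : 2 ≤ β ^ 2) (hβ0 : 0 < β) (hs : 1 ≤ s) (hD : 1 ≤ D) (hζ : 0 ≤ ζ) (hζ2 : ζ < 2)
    (hN : D ^ 2 + η ^ 2 + ζ ^ 2 - (β + s) * D * η + D * ζ - β * η * ζ = 1) (hC : β * η < D + 2 * ζ)
    (hT : 2 * D + ζ ≤ (β + s) * η) (hγ : 1 + ζ ≤ β * η) : False := by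
  have hβ1 : 1.4142 < β := by nlinarith only [hβ, hβ0]
  have hβs : β ≤ β * s := by nlinarith only [hβ0, hs]
  have hn2 : 5.82 < (β + s) ^ 2 := by nlinarith only [hs, hβ1]
  have hnβ : 3.4142 < (β + s) * β := by nlinarith only [hβ, hβ0, hs]
  obtain ⟨q, hq⟩ : ∃ q : ℝ → ℝ, ∀ x, q x = 1 * x ^ 2 + -((β + s) * D + β * ζ) * x + (D ^ 2 + D * ζ + ζ ^ 2 - 1) :=
    ⟨fun x => 1 * x ^ 2 + -((β + s) * D + β * ζ) * x + (D ^ 2 + D * ζ + ζ ^ 2 - 1), fun _ => rfl⟩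
  have h0 : q η = 0 := by
    rw [hq]
    linarith only [hN]
  have hDζ : 0 ≤ D * ζ := mul_nonneg (by linarith only [hD]) hζ
  have hup : q ((D + 2 * ζ) / β) < 0 := by
    have e : q ((D + 2 * ζ) / β) = ((D + 2 * ζ) ^ 2 - β ^ 2 * (2 * (D * ζ) + ζ ^ 2 + 1) - β * s * D * (D + 2 * ζ)) / β ^ 2 := by
      rw [hq]
      field_simp
      ring
    rw [e]
    apply div_neg_of_neg_of_pos _ (by positivity)
    have h1 : 2 * (2 * (D * ζ) + ζ ^ 2 + 1) ≤ β ^ 2 * (2 * (D * ζ) + ζ ^ 2 + 1) :=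
      mul_le_mul_of_nonneg_right hβ (by positivity)
    have h2 : 1.4142 * (D * (D + 2 * ζ)) ≤ β * s * (D * (D + 2 * ζ)) :=
      mul_le_mul_of_nonneg_right (by linarith only [hβ1, hβs]) (by positivity)
    nlinarith only [h1, h2, mul_nonneg hζ (by linarith only [hζ2] : 0 ≤ 2 - ζ), mul_nonneg hζ (by linarith only [hD] : 0 ≤ D - 1)]
  have fin : ∀ y, q y < 0 → y ≤ η → False := by
    intro y hy1 hy2
    have := conv_neg q 1 (-((β + s) * D + β * ζ)) (D ^ 2 + D * ζ + ζ ^ 2 - 1) hq zero_le_one hy1 hup hy2 (by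
      rw [le_div_iff₀ hβ0]
      linarith only [hC])
    linarith only [h0, this]
  by_cases hc : 2 ≤ D ∨ ζ ≤ 1
  · refine fin ((2 * D + ζ) / (β + s)) ?_ (by
      rw [div_le_iff₀ (by linarith only [hβ0, hs])]
      linarith only [hT])
    have hne : β + s ≠ 0 := by linarith only [hβ0, hs]
    have e : q ((2 * D + ζ) / (β + s)) = ((2 * D + ζ) ^ 2 - (β + s) * β * (ζ * (2 * D + ζ)) -
        (β + s) ^ 2 * (D ^ 2 + 1 - ζ ^ 2)) / (β + s) ^ 2 := by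
      rw [hq]
      field_simp
      ring
    rw [e]
    apply div_neg_of_neg_of_pos _ (by positivity)
    have h3 : 0 ≤ D ^ 2 + 1 - ζ ^ 2 := by
      rcases hc with hc | hc <;> nlinarith
    have h1 : 5.82 * (D ^ 2 + 1 - ζ ^ 2) ≤ (β + s) ^ 2 * (D ^ 2 + 1 - ζ ^ 2) := mul_le_mul_of_nonneg_right hn2.le h3
    have h2 : 3.4142 * (ζ * (2 * D + ζ)) ≤ (β + s) * β * (ζ * (2 * D + ζ)) :=
      mul_le_mul_of_nonneg_right hnβ.le (by positivity)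
    rcases hc with hc | hc
    · nlinarith only [hDζ, h3, h1, h2, mul_nonneg hζ (by linarith only [hc] : 0 ≤ D - 2)]
    · nlinarith only [h1, h2, hc, mul_nonneg hζ (by linarith only [hc] : 0 ≤ 1 - ζ)]
  · obtain ⟨hc1, hc2⟩ := not_or.1 hc
    rw [not_le] at hc1 hc2
    refine fin ((1 + ζ) / β) ?_ (by
      rw [div_le_iff₀ hβ0]
      linarith only [hγ])
    have e : q ((1 + ζ) / β) = ((1 + ζ) ^ 2 - β * s * (D * (1 + ζ)) - β ^ 2 * (1 + ζ + D - D ^ 2)) / β ^ 2 := by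
      rw [hq]
      field_simp
      ring
    rw [e]
    apply div_neg_of_neg_of_pos _ (by positivity)
    have h3 : 0 ≤ 1 + ζ + D - D ^ 2 := by nlinarith only [hDζ, hc1, hc2]
    have h1 : 2 * (1 + ζ + D - D ^ 2) ≤ β ^ 2 * (1 + ζ + D - D ^ 2) := mul_le_mul_of_nonneg_right hβ h3
    have h2 : 1.4142 * (D * (1 + ζ)) ≤ β * s * (D * (1 + ζ)) :=
      mul_le_mul_of_nonneg_right (by linarith only [hβ1, hβs]) (by positivity)
    nlinarith only [h3, h1, h2, mul_nonneg (by linarith only [hD] : 0 ≤ D - 1) (by linarith only [hc1] : 0 ≤ 2 - D),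
      mul_nonneg (by linarith only [hc2] : 0 ≤ ζ - 1) (by linarith only [hζ2] : 0 ≤ 2 - ζ)]

/-- `x` is steeper than `r_{d2} d1` -/
theorem h1_steep {β s γ δ x1 : ℝ} (hβ : 1 ≤ β) (hs : 1 ≤ s)
    (hN : γ ^ 2 + x1 ^ 2 + δ ^ 2 - β * γ * x1 - γ * δ - s * x1 * δ = 1) (h1 : β * x1 ≤ γ)
    (h2 : 2 * γ < δ + β * x1) (h3 : 2 * δ ≤ s * x1 + γ) : False := by
  have h4 : (δ - (2 * γ - β * x1)) * (δ + γ - β * x1 - s * x1) < 0 :=
    mul_neg_of_pos_of_neg (by linarith only [h2]) (by linarith only [h2, h3])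
  have h5 : 3 * γ ^ 2 + -(4 * β * x1 + 2 * s * x1) * γ + (β ^ 2 * x1 ^ 2 + x1 ^ 2 + s * β * x1 ^ 2 - 1) < 0 := by
    refine conv_neg (fun x => 3 * x ^ 2 + -(4 * β * x1 + 2 * s * x1) * x +
      (β ^ 2 * x1 ^ 2 + x1 ^ 2 + s * β * x1 ^ 2 - 1)) 3 _ _ (fun x => rfl) (by norm_num) (u := β * x1)
      (v := (s + 2 * β) * x1 / 3) ?_ ?_ h1 (by linarith only [h2, h3])
    · have e : 3 * (β * x1) ^ 2 + -(4 * β * x1 + 2 * s * x1) * (β * x1) +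
        (β ^ 2 * x1 ^ 2 + x1 ^ 2 + s * β * x1 ^ 2 - 1) = -(s * β - 1) * x1 ^ 2 - 1 := by ring
      rw [e]
      have : 0 ≤ (s * β - 1) * x1 ^ 2 := mul_nonneg (by nlinarith only [hβ, hs]) (sq_nonneg _)
      linarith only [this]
    · have e : 3 * ((s + 2 * β) * x1 / 3) ^ 2 + -(4 * β * x1 + 2 * s * x1) * ((s + 2 * β) * x1 / 3) +
        (β ^ 2 * x1 ^ 2 + x1 ^ 2 + s * β * x1 ^ 2 - 1) = -((s ^ 2 + s * β + β ^ 2 - 3) / 3) * x1 ^ 2 - 1 := by ring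
      rw [e]
      have : 0 ≤ (s ^ 2 + s * β + β ^ 2 - 3) / 3 * x1 ^ 2 := mul_nonneg (by nlinarith only [hβ, hs]) (sq_nonneg _)
      linarith only [this]
  nlinarith only [hN, h4, h5]

end Pool.Agent.Helper59.DY
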