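import Pool.Agent.Helper59.DY.NGbG
import Pool.Agent.Helper59.DY.NGbR2

/-!
# `F` beyond `V_2`: the label `2 b2 = 1`, `b1 ≥ 1/2` (MP_d13a5e_al)
-/

set_option autoImplicit false

namespace Pool.Agent.Helper59.DY

open _root_.DY (Z1 sq Str Beyond)
open Pool.Agent.Helper62.DY (RT sq_zero sq_one sq_rec cheb_id sq_grow one_le_of_all om_lim)

variable {b1 b2 bO : ℝ} {R : ℝ → ℝ → ℝ → Prop} {g x1 x2 f1 f2 r1 r2 : ℝ}

/-- `y ≥ 1`, `z ≥ 1`, `y^2 + z^2 - y z = 1` -/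
theorem a2_one {y z : ℝ} (hy : 1 ≤ y) (hz : 1 ≤ z) (h : y ^ 2 + z ^ 2 - y * z = 1) : y = 1 ∧ z = 1 := by
  have e1 : 0 ≤ (y - 1) * (z - 1) := mul_nonneg (by linarith) (by linarith)
  have e2 : 0 ≤ (y - z) ^ 2 := sq_nonneg _
  constructor
  · nlinarith
  · nlinarith

/-- the coordinates `δ` and `γ` -/
theorem Cf.dg (C : Cf b1 b2 bO R g x1 x2 f1 f2 r1 r2) (hl : 2 * b2 = 1) (hq : 1 < -f2)
    (hF : x2 - 2 * bO * x1 < g) {δ γ : ℝ} (hδ : δ = g + 2 * bO * x1 - x2) (hγ : γ = δ + 2 * b1 * x1 - g) :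
    1 ≤ δ ∧ 1 ≤ γ ∧ γ < g ∧ R γ x1 δ ∧ δ < x2 ∧
      γ ^ 2 + x1 ^ 2 + δ ^ 2 - 2 * b1 * γ * x1 - γ * δ - 2 * bO * x1 * δ = 1 := by
  have h := C.rt
  have p1 := C.p1
  have hg := C.g1
  have hb2 : b2 = 1 / 2 := by linarith
  have hc := C.cR
  have hC1 : b1 * x1 + b2 * x2 - g < x2 - b2 * g - bO * x1 := by
    have := mul_le_mul_of_nonneg_right hq.le hc
    have := C.C0
    linarith
  rw [hb2] at hc hC1
  have w1 := h.r2 _ _ _ C.rx
  have e1 : 2 * b2 * g + 2 * bO * x1 - x2 = δ := by rw [hδ, hl]; ring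
  rw [e1] at w1
  have hδ1 : 1 ≤ δ := (h.z2 w1 (by linarith)).2.2
  have w2 := h.r0 _ _ _ w1
  have e2 : 2 * b1 * x1 + 2 * b2 * δ - g = γ := by rw [hγ, hl]; ring
  rw [e2] at w2
  have hγg : γ < g := by
    rw [hγ, hδ]
    linarith
  have hγ1 : 1 ≤ γ := by
    rcases (h.z1 w2 (by linarith)).1 with e3 | e3
    · exfalso
      -- the root `(β; 1, β + s)`
      have w3 := h.r2 _ _ _ (h.r0 _ _ _ h.e1)
      have e4 : 2 * b1 * 1 + 2 * b2 * 0 - 0 = 2 * b1 := by ring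
      have e5 : 2 * b2 * (2 * b1) + 2 * bO * 1 - 0 = 2 * b1 + 2 * bO := by rw [hl]; ring
      rw [e4, e5] at w3
      have hne : x1 ≠ 0 := by linarith
      refine C.cn (1 / x1) (2 * b1 - g / x1) (by positivity) ?_ ?_
      · have : 2 * b1 - g / x1 = -(δ / x1) := by
          field_simp
          linarith
        rw [this]
        have : 0 < δ / x1 := by positivity
        linarith
      · have e6 : 1 / x1 * g + (2 * b1 - g / x1) = 2 * b1 := by ring
        have e7 : 1 / x1 * x1 = 1 := by field_simp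
        have e8 : 1 / x1 * x2 = 2 * b1 + 2 * bO := by
          field_simp
          linarith
        rw [e6, e7, e8]
        exact w3
    · exact e3
  refine ⟨hδ1, hγ1, hγg, w2, by linarith, ?_⟩
  have := h.n _ _ _ w2
  rw [hl] at this
  linarith

/-- `2 b1 ≥ 1`: the data of the root at `h = (1, s)` -/
theorem Cf.h1_data (C : Cf b1 b2 bO R g x1 x2 f1 f2 r1 r2) (hl : 2 * b2 = 1) (hβ : 1 ≤ 2 * b1) (hq : 1 < -f2)
    (hs : 1 ≤ 2 * bO) (hf : f1 + 2 * bO * f2 < 0)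
    (hF : x2 - 2 * bO * x1 < g) {δ γ ζ : ℝ} (hδ : δ = g + 2 * bO * x1 - x2) (hγ : γ = δ + 2 * b1 * x1 - g)
    (hζ : ζ = x2 - 2 * bO * x1) :
    0 < ζ ∧ ζ < 2 ∧ R 0 1 (2 * bO) ∧ g = δ + ζ ∧
      δ ^ 2 + x1 ^ 2 + ζ ^ 2 - (2 * b1 + 2 * bO) * δ * x1 + δ * ζ - 2 * b1 * x1 * ζ = 1 ∧
      2 * b1 * x1 < δ + 2 * ζ ∧ 2 * δ + ζ ≤ (2 * b1 + 2 * bO) * x1 ∧ 1 + ζ ≤ 2 * b1 * x1 ∧
      x1 * -(1 * f1 + 2 * bO * f2) < δ ∧ -f2 * ζ < 1 + ζ / 2 := by
  obtain ⟨d1, d2, d3, d4, d5, d6⟩ := C.dg hl hq hF hδ hγ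
  have h := C.rt
  have p1 := C.p1
  have hg := C.g1
  have hc := C.cR
  have hb2 : b2 = 1 / 2 := by linarith
  rw [hb2] at hc
  have hst : 0 ≤ ζ := by
    by_contra hcon
    rw [not_le] at hcon
    refine h1_steep (β := 2 * b1) (s := 2 * bO) (γ := γ) (δ := δ) (x1 := x1) hβ hs (by linarith) ?_ ?_ ?_
    · linarith
    · linarith
    · linarith
  have rh : R 0 1 (2 * bO) := by
    have := h.r2 _ _ _ h.e1
    have e : 2 * b2 * 0 + 2 * bO * 1 - 0 = 2 * bO := by ring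
    rw [e] at this
    exact this
  have hζ0 : 0 < ζ := by
    rcases hst.eq_or_lt with e | e
    · exfalso
      exact C.not_par rh one_pos (by linarith)
    · exact e
  have hη : 0 < x1 := by linarith
  have hK := C.key (by linarith) rh zero_le_one (by linarith) (by linarith) (η := x1) (ζ := ζ) (by ring) (by linarith)
    hη hζ0.le
  have hK2 : 0 < (-f2 - 1) * ζ := mul_pos (by linarith) hζ0
  have hD := C.Dq (a1 := 1) (a2 := 2 * bO) (η := x1) (ζ := ζ) (by ring) (by linarith)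
  rw [hb2] at hK hD
  have hgδ : g = δ + ζ := by linarith
  refine ⟨hζ0, by linarith, rh, hgδ, ?_, by linarith, by linarith, by linarith, by linarith, by linarith⟩
  have hn := h.n _ _ _ C.rx
  have hx2 : x2 = 2 * bO * x1 + ζ := by linarith
  rw [hb2, hgδ, hx2] at hn
  linear_combination hn

/-- `2 b2 = 1`, `(2 b1) ^ 2 ≥ 2` -/
theorem Cf.beta_big (C : Cf b1 b2 bO R g x1 x2 f1 f2 r1 r2) (hl : 2 * b2 = 1) (hβ : 1 ≤ 2 * b1)
    (hβ2 : 2 ≤ (2 * b1) ^ 2) (hq : 1 < -f2) (hs : 1 ≤ 2 * bO) (hf : f1 + 2 * bO * f2 < 0)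
    (hF : x2 - 2 * bO * x1 < g) : False := by
  obtain ⟨z0, z1, z2, z3, z4, z5, z6, z7, z8, z9⟩ := C.h1_data hl hβ hq hs hf hF rfl rfl rfl
  obtain ⟨d1, d2, d3, d4, d5, d6⟩ := C.dg hl hq hF rfl rfl
  exact h1_beta hβ2 (by linarith) hs d1 z0.le z1 z4 z5 z6 z7

/-- `2 b2 = 2 b1 = 1` -/
theorem Cf.beta_one (C : Cf b1 b2 bO R g x1 x2 f1 f2 r1 r2) (hl : 2 * b2 = 1) (hβ : 2 * b1 = 1)
    (hq : 1 < -f2) (hs : 1 ≤ 2 * bO) (hf : f1 + 2 * bO * f2 < 0) (hF : x2 - 2 * bO * x1 < g) : False := by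
  obtain ⟨δ, hδ⟩ : ∃ δ, δ = g + 2 * bO * x1 - x2 := ⟨_, rfl⟩
  obtain ⟨γ, hγ⟩ : ∃ γ, γ = δ + 2 * b1 * x1 - g := ⟨_, rfl⟩
  obtain ⟨ζ, hζ⟩ : ∃ ζ, ζ = x2 - 2 * bO * x1 := ⟨_, rfl⟩
  obtain ⟨z0, z1, z2, z3, z4, z5, z6, z7, z8, z9⟩ := C.h1_data hl hβ.ge hq hs hf hF hδ hγ hζ
  obtain ⟨d1, d2, d3, d4, d5, d6⟩ := C.dg hl hq hF hδ hγ
  have h := C.rt
  have p1 := C.p1
  have hη : 0 < x1 := by linarith
  have hb2 : b2 = 1 / 2 := by linarith
  have hb1 : b1 = 1 / 2 := by linarith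
  have hf' : 1 * f1 + 2 * bO * f2 < 0 := by linarith
  obtain ⟨s, hsd⟩ : ∃ s, s = 2 * bO := ⟨_, rfl⟩
  have hsq := h.bOs
  rw [← hsd] at hsq
  -- index `1` is impossible
  have v : 1 ≤ (1 + s) * -(1 * f1 + 2 * bO * f2) := by
    rcases C.vh1 (by linarith) z2 one_pos (by linarith) hf' (η := x1) (ζ := ζ) (by ring) (by linarith) hη z0.le rfl
      with v | v
    · rw [hb2] at v
      linarith
    · have e : 2 * (1 * b1 + 2 * bO * b2) = 1 + s := by rw [hb1, hb2, hsd]; ring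
      rw [e] at v
      exact v
  -- `w`
  obtain ⟨w, hw⟩ : ∃ w, w = (1 + s) * δ - x1 := ⟨_, rfl⟩
  have hw0 : 0 < w := by
    have e1 := mul_le_mul_of_nonneg_left v hη.le
    have e2 := mul_lt_mul_of_pos_left z8 (by linarith : 0 < 1 + s)
    linarith
  obtain ⟨y1, hy1⟩ : ∃ y1, y1 = γ + s * δ - x1 := ⟨_, rfl⟩
  have w1 : R γ y1 δ := by
    have := h.r1 _ _ _ d4
    have e : 2 * b1 * γ + 2 * bO * δ - x1 = y1 := by rw [hy1, hβ, hsd]; ring
    rw [e] at this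
    exact this
  have w2 : R w y1 δ := by
    have := h.r0 _ _ _ w1
    have e : 2 * b1 * y1 + 2 * b2 * δ - γ = w := by rw [hw, hy1, hβ, hl]; ring
    rw [e] at this
    exact this
  have hw1 : 1 ≤ w := (h.z0 w2 hw0).1
  have hy1' : 1 ≤ y1 := by
    rcases (h.z0 w2 hw0).2.1 with e | e
    · exfalso
      have e1 := h.n _ _ _ w1
      rw [e, hl] at e1
      obtain ⟨e2, e3⟩ := a2_one (y := γ) (z := δ) d2 d1 (by linarith)
      have e4 : w = y1 + δ - γ := by rw [hw, hy1]; ring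
      linarith
    · exact e
  have hgγw : g + γ + w = (1 + s + 1) * δ := by
    have e1 : γ = δ + 1 * x1 - g := by rw [← hβ]; exact hγ
    linarith
  have hQ : 0 ≤ (1 + s) * y1 - δ := by
    have w3 := h.r0 _ _ _ (h.r2 _ _ _ w2)
    have e : 2 * b1 * y1 + 2 * b2 * (2 * b2 * w + 2 * bO * y1 - δ) - w = (1 + s) * y1 - δ := by
      rw [hβ, hl, hsd]
      ring
    rw [e] at w3
    exact z1n (h.z1 w3 (by linarith)).1
  rw [← hsd] at hs z4 z6
  rw [hβ] at z4 z5 z6 z7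
  rcases hsq with hs0 | hs0 | hs0
  · linarith
  · -- `(3, 3, 3)`
    rw [hs0] at hsd z4 z6 hw hy1 hgγw hQ v
    obtain ⟨θ, hθ⟩ : ∃ θ, θ = x1 - δ := ⟨_, rfl⟩
    have hx1 : x1 = δ + θ := by linarith
    have hθN : θ ^ 2 - θ * ζ + ζ ^ 2 = 1 := by
      rw [hx1] at z4
      linear_combination z4
    have hc1 : (1 : ℝ) = 1 * b1 + 2 * bO * b2 := by
      rw [← hsd, hb1, hb2]
      norm_num
    have z2' := z2
    rw [← hsd] at z2'
    rcases C.vh (by linarith) z2 one_pos (by linarith) hf' (η := x1) (ζ := ζ) (by ring) (by linarith) hη z0.le hc1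
      with v | ⟨m, v1, v2, v3⟩ | ⟨m, v1, v2, v3, v4⟩ | ⟨v1, v2⟩
    · rw [hb2] at v
      linarith
    · rw [sq_one_eq, sq_one_eq] at v2 v3
      push_cast at v2 v3
      have w4 := (C.pencil z2' (c := 1) (by rw [hb1, hb2]; norm_num) (m + 1)).1
      have e1 : sq 1 (m + 1 + 1) = ((m : ℝ) + 2) := by
        rw [sq_one_eq]
        push_cast
        ring
      rw [e1, sq_one_eq] at w4
      push_cast at w4
      obtain ⟨M, hM⟩ : ∃ M : ℝ, M = m := ⟨_, rfl⟩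
      have hM0 : 0 ≤ M := by rw [hM]; exact Nat.cast_nonneg m
      rw [← hM] at v2 v3 w4
      have w5 := h.r2 _ _ _ h.e0
      have e2 : 2 * b2 * 1 + 2 * bO * 0 - 0 = 1 := by rw [hl]; ring
      rw [e2] at w5
      have w6 := C.dt _ _ _ _ _ _ w4 w5
      have e3 : g * ((M + 2) * 1 * 1 - (M + 2) * 1 * 0) - x1 * ((M + 1) * 1 - (M + 2) * 1 * 1) +
          x2 * ((M + 1) * 0 - (M + 2) * 1 * 1) = δ - (M + 1) * θ := by
        have : x2 = 1 * x1 + ζ := by
          rw [hsd]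
          linarith
        rw [this, z3, hx1]
        ring
      rw [e3] at w6
      have w7 : 0 < δ - (M + 1) * θ := by
        have k1 := mul_le_mul_of_nonneg_right v2 hη.le
        have k2 := mul_lt_mul_of_pos_left z8 (by linarith : 0 < M + 2)
        have k3 : (M + 1) * x1 < (M + 2) * δ := by linarith
        rw [hx1] at k3
        linarith
      have w8 : 1 ≤ δ - (M + 1) * θ := by
        rcases w6 with w6 | w6
        · linarith
        · rwa [abs_of_pos w7] at w6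
      have w9 := s1_num (D := δ) (θ := θ) (ζ := ζ) (m := M) hM0 z0 hθN (by linarith) w8
      have e4 : (2 * δ - (M + 1) * θ) / (M + 3) + ζ / 2 = g - (M + 1) / (M + 2 + 1) * x1 - b2 * ζ := by
        rw [hb2, z3, hx1, show M + 2 + 1 = M + 3 by ring]
        have : M + 3 ≠ 0 := by linarith
        field_simp
        ring
      linarith
    · rw [sq_one_eq] at v2
      push_cast at v2
      have : (0 : ℝ) ≤ m := Nat.cast_nonneg m
      linarith
    · have k1 := om_lim (c := 1) (ω := 1) (κ := -(1 * f1 + 2 * bO * f2)) le_rfl (by norm_num) one_pos le_rfl (by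
        intro n
        exact v2 n)
      have k2 := mul_le_mul_of_nonneg_left k1 hη.le
      linarith
  · -- `s ^ 2 ≥ 2`
    obtain ⟨n, hn⟩ : ∃ n, n = 1 + s := ⟨_, rfl⟩
    have hs' : s = n - 1 := by linarith
    have hx1 : x1 = n * δ - w := by rw [hn]; linarith
    rw [← hn] at hgγw
    have hδ' : (n + 1) * δ = g + γ + w := by linarith
    have key := lemM (n := n) (g := g) (γ := γ) (w := w) (by rw [hn]; linarith [(by ring : (1 + s) ^ 2 - 2 * (1 + s) - 1 = s ^ 2 - 2)])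
      (by linarith) d2 d3 hw1 ?_ ?_ ?_
    · have e1 : (n + 1) * ζ = n * g - γ - w := by
        have : ζ = g - δ := by linarith
        rw [this]
        linarith [(by ring : (n + 1) * (g - δ) = (n + 1) * g - (n + 1) * δ)]
      have e2 : (n + 1) * ζ < (n + 1) * 2 := mul_lt_mul_of_pos_left z1 (by linarith)
      linarith
    · have hN := h.n _ _ _ d4
      rw [hβ, hl, ← hsd, hx1, hs'] at hN
      have hg' : g = (n + 1) * δ - γ - w := by linarith
      rw [hg']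
      linear_combination (n + 1) * hN
    · have e1 : (1 + s) * y1 - δ = (n - 1) * (γ + w) - g := by
        rw [hy1, hx1, hs']
        linear_combination -hδ'
      linarith
    · have e1 : 2 * δ + ζ ≤ n * x1 := by
        rw [hn]
        exact z6
      have e2 : n * x1 - (2 * δ + ζ) = (n - 2) * g + (n - 1) * γ - w := by
        have : ζ = g - δ := by linarith
        rw [this, hx1]
        linear_combination (n - 1) * hδ'
      linarith

end Pool.Agent.Helper59.DY
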