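import Pool.Agent.Helper59.DY.NGbR

/-!
# Real inequalities for `F` beyond `V_2`, `m_O = 7` (MP_d13a5e_al)
-/

set_option autoImplicit false

namespace Pool.Agent.Helper59.DY

section tri

variable {n g γ w D : ℝ}

/-- `m_O = 7`, index at least `3` at the vertex -/
theorem h2_seven (hn : n ^ 3 - 2 * n ^ 2 - n + 1 = 0) (hn2 : 2 < n) (hγ : 1 ≤ γ) (hg : γ < g) (hw : 1 ≤ w)
    (hN : g ^ 2 + γ ^ 2 + w ^ 2 - (n - 1) * (g * γ + g * w + γ * w) = n + 1) (hQ : g ≤ (n - 1) * (γ + w))
    (hT : w ≤ (n - 2) * g + (n - 1) * γ) (hk : g + γ + w ≤ n * (n + 1) * w) : 4.4 ≤ n * g - γ - w := by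
  have hn3 : n < 3 := by
    by_contra hcon
    rw [not_lt] at hcon
    nlinarith only [hn, mul_nonneg (by linarith only [hcon] : 0 ≤ n - 3) (sq_nonneg n)]
  have hna : 2.246 < n := by
    by_contra hcon
    rw [not_lt] at hcon
    nlinarith only [hn, mul_nonneg (by linarith only [hn2] : 0 ≤ n - 2) (by linarith only [hcon] : 0 ≤ 2.246 - n), sq_nonneg (n - 2)]
  have hnb : n < 2.248 := by
    by_contra hcon
    rw [not_lt] at hcon
    nlinarith only [hn, hn2, mul_nonneg (by linarith only [hcon] : 0 ≤ n - 2.248) (sq_nonneg n)]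
  have hsq1 : 5.0445 < n ^ 2 := by nlinarith only [hna]
  have hsq2 : n ^ 2 < 5.0536 := by nlinarith only [hna, hnb]
  have hn0 : 0 < n := by linarith only [hna]
  obtain ⟨g', hg'⟩ : ∃ g', g' = (n - 1) * (γ + w) - g := ⟨_, rfl⟩
  have hg'0 : 0 ≤ g' := by linarith only [hQ, hg']
  have hΘ : g * g' = γ ^ 2 + w ^ 2 - (n - 1) * γ * w - (n + 1) := by
    rw [hg']
    linear_combination -hN
  have hγg' : γ * g' ≤ g * g' := mul_le_mul_of_nonneg_right hg.le hg'0
  have hgoal : n * g - γ - w - 4.4 = (n ^ 2 - n - 1) * (γ + w) - n * g' - 4.4 := by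
    rw [hg']
    ring
  rcases le_or_gt w γ with hwγ | hwγ
  · -- case A
    have h33 : γ ≤ 3.4 * w := by
      by_contra hcon
      rw [not_le] at hcon
      have e1 : γ * g ≤ γ * (n * (n + 1) * w - w - γ) := mul_le_mul_of_nonneg_left (by linarith only [hk]) (by linarith only [hγ])
      have e2 : (n - 2) * γ ^ 2 + 2 * (n - 1) * (γ * w) - w ^ 2 + (n + 1) ≤ γ * g := by
        have : γ * g = (n - 1) * (γ ^ 2 + γ * w) - γ * g' := by
          rw [hg']
          ring
        rw [this]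
        nlinarith only [hΘ, hγg']
      have e3 : 3.4 * (γ * w) ≤ γ ^ 2 := by nlinarith only [hw, hcon]
      have e4 : 3.4 * w ^ 2 ≤ γ * w := by nlinarith only [hγ, hw, e3]
      have e5 : (n - 1) * (3.4 * (γ * w)) ≤ (n - 1) * γ ^ 2 := mul_le_mul_of_nonneg_left e3 (by linarith only [hna])
      have e6 : 0 ≤ (3.4 * (n - 1) - (n ^ 2 - n + 1) - 0.4) * (γ * w) := mul_nonneg (by linarith only [hna, hsq2]) (by positivity)
      have e7 : γ * g ≤ (n ^ 2 + n - 1) * (γ * w) - γ ^ 2 := by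
        have : γ * (n * (n + 1) * w - w - γ) = (n ^ 2 + n - 1) * (γ * w) - γ ^ 2 := by ring
        linarith only [e1]
      have e8 : 0 < w ^ 2 := by positivity
      linarith only [hn0, e2, e4, e5, e6, e7, e8]
    have h1 : n * (γ * g') ≤ n * (γ ^ 2 + w ^ 2 - (n - 1) * γ * w - (n + 1)) := by
      rw [← hΘ]
      exact mul_le_mul_of_nonneg_left hγg' hn0.le
    have h2 : 0 ≤ (γ - w) * (3.4 * w - γ) := mul_nonneg (by linarith only [hwγ]) (by linarith only [h33])
    obtain ⟨a, ha⟩ : ∃ a, a = -(n ^ 2 - 2 * n - 1) := ⟨_, rfl⟩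
    have ha1 : 0.438 < a := by linarith only [hna, hsq2, ha]
    have ha2 : a < 0.452 := by linarith only [hnb, hsq1, ha]
    have h3 : 0 ≤ a * ((γ - w) * (3.4 * w - γ)) := mul_nonneg (by linarith only [ha1]) h2
    have k0 : n * (n + 1) = n ^ 2 + n := by ring
    -- linear in `γ`
    have h4 : 0 < (2 * n ^ 2 - 2 * n - 1 - 4.4 * a) * (γ * w) + (3.4 * a - n) * w ^ 2 + n * (n + 1) - 4.4 * γ := by
      have k1 : 2.6 ≤ 2 * n ^ 2 - 2 * n - 1 - 4.4 * a := by linarith only [hnb, hsq1, ha2]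
      have k2 : -0.76 ≤ 3.4 * a - n := by linarith only [hsq2, ha, ha1]
      have k3 : 7.29 ≤ n * (n + 1) := by linarith only [hna, hsq1]
      have k4 : 2.6 * (γ * w) ≤ (2 * n ^ 2 - 2 * n - 1 - 4.4 * a) * (γ * w) :=
        mul_le_mul_of_nonneg_right k1 (by positivity)
      have k5 : -0.76 * w ^ 2 ≤ (3.4 * a - n) * w ^ 2 := mul_le_mul_of_nonneg_right k2 (sq_nonneg _)
      have k6 : 0 < 2.6 * (γ * w) - 0.76 * w ^ 2 + 7.29 - 4.4 * γ := by
        have l1 : 0 < 1.84 * w ^ 2 - 4.4 * w + 7.29 := by nlinarith only [sq_nonneg (w - 1.2)]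
        have l2 : 0 < 8.08 * w ^ 2 - 14.96 * w + 7.29 := by nlinarith only [sq_nonneg (w - 0.926)]
        have l4 : (3.4 * w - γ) * (1.84 * w ^ 2 - 4.4 * w + 7.29) + (γ - w) * (8.08 * w ^ 2 - 14.96 * w + 7.29) =
          2.4 * w * (2.6 * (γ * w) - 0.76 * w ^ 2 + 7.29 - 4.4 * γ) := by ring
        have l6 : 0 < (3.4 * w - γ) * (1.84 * w ^ 2 - 4.4 * w + 7.29) +
            (γ - w) * (8.08 * w ^ 2 - 14.96 * w + 7.29) := by
          rcases hwγ.eq_or_lt with l5 | l5
          · rw [← l5]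
            have := mul_pos (by linarith only [hw] : 0 < 3.4 * w - w) l1
            linarith only [this]
          · exact add_pos_of_nonneg_of_pos (mul_nonneg (by linarith only [h33]) l1.le) (mul_pos (by linarith only [l5]) l2)
        rw [l4] at l6
        exact (mul_pos_iff_of_pos_left (by linarith only [hw])).1 l6
      linarith only [k3, k4, k5, k6]
    have hF : 0 < γ * (n * g - γ - w - 4.4) := by
      rw [hgoal]
      have e1 : γ * ((n ^ 2 - n - 1) * (γ + w) - n * g' - 4.4) =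
        (n ^ 2 - n - 1) * (γ ^ 2 + γ * w) - n * (γ * g') - 4.4 * γ := by ring
      have e2 : a * ((γ - w) * (3.4 * w - γ)) = a * (4.4 * (γ * w) - 3.4 * w ^ 2 - γ ^ 2) := by ring
      have e3 : a * γ ^ 2 = -(n ^ 2 - 2 * n - 1) * γ ^ 2 := by rw [ha]
      rw [e1]
      linarith only [h1, h3, h4, e3]
    have := (mul_pos_iff_of_pos_left (by linarith only [hγ] : 0 < γ)).1 hF
    linarith only [this]
  · rcases le_or_gt w ((n - 1) * γ) with h1 | h1
    · -- case B1
      have h2 : w * w ≤ (n - 1) * γ * w := mul_le_mul_of_nonneg_right h1 (by linarith only [hw])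
      have h3 : n * (γ * g') ≤ n * (γ ^ 2 - (n + 1)) := mul_le_mul_of_nonneg_left (by nlinarith only [hΘ, hγg', h2]) hn0.le
      have h4 : (n ^ 2 - n - 1) * γ * γ ≤ (n ^ 2 - n - 1) * γ * w :=
        mul_le_mul_of_nonneg_left hwγ.le (mul_nonneg (by nlinarith only [hsq1]) (by linarith only [hγ]))
      have h5 : 1.34 * γ ^ 2 ≤ (2 * n ^ 2 - 3 * n - 2) * γ ^ 2 := mul_le_mul_of_nonneg_right (by linarith only [hnb, hsq1]) (sq_nonneg _)
      have h6 : 7.29 ≤ n * (n + 1) := by
        have : n * (n + 1) = n ^ 2 + n := by ring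
        linarith only [hna, hsq1]
      have h7 : 0 < 1.34 * γ ^ 2 - 4.4 * γ + 7.29 := by nlinarith only [sq_nonneg (γ - 1.64)]
      have hF : 0 < γ * (n * g - γ - w - 4.4) := by
        rw [hgoal]
        nlinarith only [h3, h4, h5, h6]
      have := (mul_pos_iff_of_pos_left (by linarith only [hγ] : 0 < γ)).1 hF
      linarith only [this]
    · refine triB3 (by linarith only [hna]) hn3.le hγ hg hN hT h1.le ?_ ?_
      · have e : (3 - n) * ((n * γ + 4.4) / 2) ^ 2 - 2 * (n - 1) * γ * ((n * γ + 4.4) / 2) + γ ^ 2 - (n + 1) =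
            (-((n + 1) * (n ^ 2 - 4) / 4)) * γ ^ 2 + (2.2 * n * (3 - n) - 4.4 * (n - 1)) * γ + (4.84 * (3 - n) - (n + 1)) := by
          ring
        rw [e]
        have k0 : 3.246 * 1.0445 ≤ (n + 1) * (n ^ 2 - 4) := mul_le_mul (by linarith only [hna]) (by linarith only [hsq1]) (by norm_num) (by linarith only [hn0])
        have k1 : -((n + 1) * (n ^ 2 - 4) / 4) ≤ -0.84 := by linarith only [k0]
        have k2 : 2.2 * n * (3 - n) - 4.4 * (n - 1) ≤ -1.7 := by
          have : 2.2 * n * (3 - n) = 6.6 * n - 2.2 * n ^ 2 := by ring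
          rw [this]
          linarith only [hnb, hsq1]
        have k3 := mul_le_mul_of_nonneg_right k1 (sq_nonneg γ)
        have k4 := mul_le_mul_of_nonneg_right k2 (by linarith only [hγ] : 0 ≤ γ)
        have k5 : 1 ≤ γ ^ 2 := by nlinarith only [hγ]
        linarith only [hn2, hγ, k3, k4, k5]
      · have e : (γ + 4.4 / n) ^ 2 - (n - 1) * n * γ * (γ + 4.4 / n) + γ ^ 2 - (n + 1) =
            (2 - n * (n - 1)) * γ ^ 2 + (8.8 / n - 4.4 * (n - 1)) * γ + (4.4 / n) ^ 2 - (n + 1) := by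
          field_simp
          ring
        rw [e]
        have k0 : 4.4 / n ≤ 1.96 := by
          rw [div_le_iff₀ hn0]
          linarith only [hna]
        have k0' : 0 ≤ 4.4 / n := by positivity
        have k1 : 2 - n * (n - 1) ≤ -0.79 := by
          have : n * (n - 1) = n ^ 2 - n := by ring
          rw [this]
          linarith only [hnb, hsq1]
        have k2 : 8.8 / n - 4.4 * (n - 1) ≤ -1.5 := by
          have : 8.8 / n = 2 * (4.4 / n) := by ring
          rw [this]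
          linarith only [hna, k0]
        have k3 := mul_le_mul_of_nonneg_right k1 (sq_nonneg γ)
        have k4 := mul_le_mul_of_nonneg_right k2 (by linarith only [hγ] : 0 ≤ γ)
        have k5 : 1 ≤ γ ^ 2 := by nlinarith only [hγ]
        have k6 : (4.4 / n) ^ 2 ≤ 1.96 ^ 2 := pow_le_pow_left₀ k0' k0 2
        linarith only [hn2, hγ, k3, k4, k5, k6]

end tri

end Pool.Agent.Helper59.DY
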