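import Pool.Agent.Helper59.DY.NGbH
import Pool.Agent.Helper59.DY.NGbR4

/-!
# `F` beyond `V_2`: the label `2 b2 = 1`, `b1 = 0`, and the theorem (MP_d13a5e_al)
-/

set_option autoImplicit false

namespace Pool.Agent.Helper59.DY

open _root_.DY (Z1 sq Str Beyond)
open Pool.Agent.Helper62.DY (RT sq_zero sq_one sq_rec cheb_id sq_grow one_le_of_all om_lim)

variable {b1 b2 bO : ℝ} {R : ℝ → ℝ → ℝ → Prop} {g x1 x2 f1 f2 r1 r2 : ℝ}

/-- the labels `m_O ≥ 6` -/
theorem lab7 (h : RT b1 b2 bO R) (hb : 1 ≤ 2 * b2) (h3 : 3 ≤ (2 * b2) ^ 2) {n : ℝ} (hn : n = (2 * b2) ^ 2 - 1) :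
    n = 2 ∨ n ^ 3 - 2 * n ^ 2 - n + 1 = 0 ∨ 0 ≤ n ^ 2 - 2 * n - 1 := by
  obtain ⟨l, hl⟩ : ∃ l, l = 2 * b2 := ⟨_, rfl⟩
  have e2 : sq b2 2 = l := by
    have : sq b2 2 = 2 * b2 * 1 - 0 := rfl
    rw [this, hl]
    ring
  have e3 : sq b2 3 = l ^ 2 - 1 := by
    have : sq b2 3 = 2 * b2 * sq b2 2 - 1 := rfl
    rw [this, e2, hl]
    ring
  have e4 : sq b2 4 = l * (l ^ 2 - 2) := by
    have : sq b2 4 = 2 * b2 * sq b2 3 - sq b2 2 := rfl
    rw [this, e2, e3, hl]
    ring
  have e5 : sq b2 5 = l ^ 4 - 3 * l ^ 2 + 1 := by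
    have : sq b2 5 = 2 * b2 * sq b2 4 - sq b2 3 := rfl
    rw [this, e3, e4, hl]
    ring
  have e6 : sq b2 6 = l * ((l ^ 2 - 1) * (l ^ 2 - 3)) := by
    have : sq b2 6 = 2 * b2 * sq b2 5 - sq b2 4 := rfl
    rw [this, e4, e5, hl]
    ring
  have e7 : sq b2 7 = l ^ 6 - 5 * l ^ 4 + 6 * l ^ 2 - 1 := by
    have : sq b2 7 = 2 * b2 * sq b2 6 - sq b2 5 := rfl
    rw [this, e5, e6, hl]
    ring
  have e8 : sq b2 8 = l * ((l ^ 2 - 2) * (l ^ 4 - 4 * l ^ 2 + 2)) := by
    have : sq b2 8 = 2 * b2 * sq b2 7 - sq b2 6 := rfl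
    rw [this, e6, e7, hl]
    ring
  rw [← hl] at h3 hb hn
  have hln : l ^ 2 = n + 1 := by linarith only [hn]
  rcases h3.eq_or_lt with h4 | h4
  · left
    linarith only [hln, h4]
  · right
    have h6 : 0 < sq b2 (5 + 1) := by
      have : sq b2 (5 + 1) = sq b2 6 := rfl
      rw [this, e6]
      exact mul_pos (by linarith only [hb]) (mul_pos (by linarith only [h4]) (by linarith only [h4]))
    have h7 := h.pnn 5 h6
    have e7' : sq b2 (5 + 2) = sq b2 7 := rfl
    rw [e7'] at h7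
    rcases h7.eq_or_lt with h8 | h8
    · left
      rw [e7] at h8
      have e9 : l ^ 6 - 5 * l ^ 4 + 6 * l ^ 2 - 1 = n ^ 3 - 2 * n ^ 2 - n + 1 := by
        have a1 : l ^ 4 = (n + 1) ^ 2 := by rw [← hln]; ring
        have a2 : l ^ 6 = (n + 1) ^ 3 := by rw [← hln]; ring
        rw [a1, a2, hln]
        ring
      linarith only [h8, e9]
    · right
      have h9 := h.pnn 6 h8
      have e8' : sq b2 (6 + 2) = sq b2 8 := rfl
      rw [e8', e8] at h9
      have h10 := (mul_nonneg_iff_of_pos_left (by linarith only [hb] : 0 < l)).1 h9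
      have h11 := (mul_nonneg_iff_of_pos_left (by linarith only [h4] : 0 < l ^ 2 - 2)).1 h10
      have e9 : l ^ 4 - 4 * l ^ 2 + 2 = n ^ 2 - 2 * n - 1 := by
        have a1 : l ^ 4 = (n + 1) ^ 2 := by rw [← hln]; ring
        rw [a1, hln]
        ring
      linarith only [h11, e9]

/-- the quotients `s_(m+1) / s_(m+2)`, `m ≥ 1`, are at least `s_2 / s_3` -/
theorem sq_diff3 (c : ℝ) (l : ℕ) : sq c (l + 2) * ((2 * c) ^ 2 - 1) - sq c (l + 3) * (2 * c) = sq c l := by
  induction l using Nat.twoStepInduction with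
  | zero =>
    have a1 : sq c (0 + 2) = 2 * c * 1 - 0 := rfl
    have a2 : sq c (0 + 3) = 2 * c * sq c (0 + 2) - 1 := rfl
    rw [a2, a1, sq_zero]
    ring
  | one =>
    have a1 : sq c (0 + 2) = 2 * c * 1 - 0 := rfl
    have a2 : sq c (1 + 2) = 2 * c * sq c (0 + 2) - 1 := rfl
    have a3 : sq c (1 + 3) = 2 * c * sq c (1 + 2) - sq c (0 + 2) := rfl
    rw [a3, a2, a1, sq_one]
    ring
  | more l h1 h2 =>
    have a1 : sq c (l + 2 + 2) = 2 * c * sq c (l + 1 + 2) - sq c (l + 2) := rfl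
    have a2 : sq c (l + 2 + 3) = 2 * c * sq c (l + 1 + 3) - sq c (l + 3) := rfl
    have a3 : sq c (l + 2) = 2 * c * sq c (l + 1) - sq c l := rfl
    rw [a1, a2]
    have : sq c (l + 1 + 1) = sq c (l + 2) := rfl
    linear_combination 2 * c * h2 - h1 - a3

/-- `2 b2 = 1`, `b1 = 0` -/
theorem Cf.beta_zero (C : Cf b1 b2 bO R g x1 x2 f1 f2 r1 r2) (hl : 2 * b2 = 1) (hb1 : b1 = 0)
    (hq : 1 < -f2) (hs : 1 ≤ 2 * bO) (hF : x2 - 2 * bO * x1 < g) {be1 be2 : ℝ}
    (rh : R 0 be1 be2) (hbe : 1 ≤ be1) (hf : be1 * f1 + be2 * f2 < 0) (hu : x1 * be2 ≤ x2 * be1) : False := by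
  obtain ⟨δ, hδ⟩ : ∃ δ, δ = g + 2 * bO * x1 - x2 := ⟨_, rfl⟩
  obtain ⟨γ, hγ⟩ : ∃ γ, γ = δ + 2 * b1 * x1 - g := ⟨_, rfl⟩
  obtain ⟨d1, d2, d3, d4, d5, d6⟩ := C.dg hl hq hF hδ hγ
  have h := C.rt
  have p1 := C.p1
  have hg := C.g1
  have hb2 : b2 = 1 / 2 := by linarith only [hl]
  obtain ⟨s, hsd⟩ : ∃ s, s = 2 * bO := ⟨_, rfl⟩
  have hls := lab_cases h.swap0.swap hs
  have hl7 := lab7 h.swap0.swap hs (n := s ^ 2 - 1)
  obtain ⟨t1, t2⟩ := C.slope rh hbe hf
  rw [← hsd] at hs hF hδ d6 hls hl7 t2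
  rw [hb1] at hγ d6
  have hs0 : 0 < s := by linarith only [hs]
  have hδg : δ = g + γ := by linarith
  -- `y1`
  obtain ⟨y1, hy1⟩ : ∃ y1, y1 = s * δ - x1 := ⟨_, rfl⟩
  have w1 : R γ y1 δ := by
    have := h.r1 _ _ _ d4
    have e : 2 * b1 * γ + 2 * bO * δ - x1 = y1 := by rw [hy1, hb1, hsd]; ring
    rw [e] at this
    exact this
  have hy1' : 1 ≤ y1 := by
    rcases (h.z0 w1 (by linarith only [d2])).2.1 with e | e
    · exfalso
      have e1 := h.n _ _ _ w1
      rw [e, hl] at e1
      obtain ⟨e2, e3⟩ := a2_one (y := γ) (z := δ) d2 d1 (by linarith only [e1])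
      linarith only [hg, hδg, e2, e3]
    · exact e
  -- `w`
  obtain ⟨w, hw⟩ : ∃ w, w = s * y1 - δ := ⟨_, rfl⟩
  have w2 : R γ y1 (γ + w) := by
    have := h.r2 _ _ _ w1
    have e : 2 * b2 * γ + 2 * bO * y1 - δ = γ + w := by rw [hw, hl, hsd]; ring
    rw [e] at this
    exact this
  have w3 : R w y1 (γ + w) := by
    have := h.r0 _ _ _ w2
    have e : 2 * b1 * y1 + 2 * b2 * (γ + w) - γ = w := by rw [hb1, hl]; ring
    rw [e] at this
    exact this
  have hwz : Z1 w := (h.z1 w3 (by linarith only [hy1'])).1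
  have hw0 : 0 ≤ w := z1n hwz
  obtain ⟨n, hn⟩ : ∃ n, n = s ^ 2 - 1 := ⟨_, rfl⟩
  have hsn : s ^ 2 = n + 1 := by linarith only [hn]
  obtain ⟨η, hηd⟩ : ∃ η, η = x1 / s := ⟨_, rfl⟩
  have hx1 : x1 = s * η := by
    rw [hηd]
    field_simp
  have hη : 0 < η := by
    rw [hηd]
    positivity
  obtain ⟨D, hD⟩ : ∃ D, D = δ - η := ⟨_, rfl⟩
  have hsD : s * D = y1 := by
    rw [hD, hy1, hx1]
    ring
  have hS : (n + 1) * D = g + γ + w := by
    rw [← hsn]
    have : s ^ 2 * D = s * (s * D) := by ring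
    rw [this, hsD]
    linarith only [hδg, hw]
  have hηD : η = g + γ - D := by linarith only [hδg, hD]
  have hN : g ^ 2 + γ ^ 2 + w ^ 2 - (n - 1) * (g * γ + g * w + γ * w) = n + 1 := by
    have e1 : γ ^ 2 + (n + 1) * η ^ 2 + δ ^ 2 - γ * δ - (n + 1) * (η * δ) = 1 := by
      rw [← hsn]
      rw [hx1] at d6
      linear_combination d6
    rw [hηD, hδg] at e1
    have e2 : w = (n + 1) * D - g - γ := by linarith only [hS]
    rw [e2]
    linear_combination (n + 1) * e1
  have hT : w ≤ (n - 2) * g + (n - 1) * γ := by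
    have hc := C.cR
    rw [hb2, hb1] at hc
    have e1 : g + δ ≤ s * x1 := by linarith only [hδ, hc]
    have e2 : s * x1 = (n + 1) * η := by rw [hx1, ← hsn]; ring
    rw [e2, hηD, hδg] at e1
    linarith only [hS, e1, (by ring : (n + 1) * (g + γ - D) = (n + 1) * (g + γ) - (n + 1) * D)]
  -- `h1 = (s, n)`
  have rh1 : R 0 s n := by
    have := h.r2 _ _ _ (h.r1 _ _ _ h.e2)
    have e : 2 * b1 * 0 + 2 * bO * 1 - 0 = s := by rw [hsd]; ring
    rw [e] at this
    have e2 : 2 * b2 * 0 + 2 * bO * s - 1 = n := by rw [hn, ← hsd]; ring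
    rw [e2] at this
    exact this
  have hslope : s * be2 ≤ n * be1 := by
    have e1 : 0 < s * be1 - be2 := by
      have k1 : x2 * be1 < s * x1 * be1 := mul_lt_mul_of_pos_right (by linarith only [hγ, d2, hδ]) (by linarith only [hbe])
      have k2 : 0 < x1 * (s * be1 - be2) := by linarith only [hu, k1]
      exact (mul_pos_iff_of_pos_left (by linarith only [p1])).1 k2
    have e2 := h.r2 _ _ _ rh
    have e3 : 2 * b2 * 0 + 2 * bO * be1 - be2 = s * be1 - be2 := by rw [hsd]; ring
    rw [e3] at e2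
    have e4 := z1n (h.z2 (h.r1 _ _ _ e2) e1).2.1
    have e5 : 2 * b1 * 0 + 2 * bO * (s * be1 - be2) - be1 = n * be1 - s * be2 := by rw [hn, ← hsd]; ring
    rw [e5] at e4
    linarith only [e4]
  have hf2 := C.hf2
  have hf1 : s * f1 + n * f2 < 0 := by
    have e1 : s * (be1 * f1 + be2 * f2) < 0 := mul_neg_of_pos_of_neg hs0 hf
    have e2 : n * be1 * f2 ≤ s * be2 * f2 := mul_le_mul_of_nonpos_right hslope hf2.le
    have e3 : be1 * (s * f1 + n * f2) < 0 := by linarith only [e1, e2]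
    by_contra hcon
    have := mul_nonneg (by linarith only [hbe] : 0 ≤ be1) (not_lt.1 hcon)
    linarith only [e3, this]
  have hg2 : 1 < g ^ 2 := by nlinarith only [d2, d3]
  have hγ2 : 1 ≤ γ ^ 2 := one_le_pow₀ d2
  have hgγ0 : 0 ≤ g * γ := mul_nonneg (by linarith only [hg]) (by linarith only [d2])
  have hgw0 : 0 ≤ g * w := mul_nonneg (by linarith only [hg]) hw0
  have hγw0 : 0 ≤ γ * w := mul_nonneg (by linarith only [d2]) hw0
  have hw20 : 0 ≤ w ^ 2 := sq_nonneg w
  -- small labels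
  have hn1 : (n ^ 2 = n + 1 ∧ 1.618 < n) ∨ 2 ≤ n := by
    rcases hls with e | e | e | e
    · exfalso
      have : n = 0 := by rw [hn, e]; norm_num
      rw [this] at hN
      linarith only [hN, hg2, hγ2, hgγ0, hgw0, hγw0, hw20]
    · exfalso
      have : n = 1 := by rw [hn, e]; norm_num
      rw [this] at hN
      linarith only [hN, hg2, hγ2, hw20]
    · left
      have e1 := gold_gt e hs
      have e2 : n = s := by rw [hn, e]; ring
      rw [e2]
      exact ⟨e, e1⟩
    · right
      linarith only [hsn, e]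
  have hn0 : 1.618 < n := by rcases hn1 with ⟨_, e⟩ | e <;> linarith
  -- `D`, `ζ`
  have hD1 : 1 ≤ D := h2_D (by linarith only [hn0]) d2 d3 hw0 hN hS
  obtain ⟨ζ, hζ⟩ : ∃ ζ, ζ = g - D := ⟨_, rfl⟩
  have hζn : (n + 1) * ζ = n * g - γ - w := by
    rw [hζ]
    linarith only [hS, (by ring : (n + 1) * (g - D) = (n + 1) * g - (n + 1) * D)]
  have hgold : ∀ _ : n ^ 2 = n + 1, 1 ≤ w → False := fun e hw1 => h2_gold e (by linarith only [hn0]) d2 d3 hw1 hN hT
  have hζ0 : 0 < ζ := by
    have key : 0 < (n + 1) * ζ := by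
      rw [hζn]
      rcases hn1 with ⟨e, -⟩ | e
      · rcases hwz with e1 | e1
        · rw [e1]
          have := mul_lt_mul_of_pos_right (by linarith only [hn0] : 1 < n) (by linarith only [hg] : 0 < g)
          linarith only [d3, this]
        · exact (hgold e e1).elim
      · have e1 := h2_zeta e d2 d3 hN hT
        have e2 : (n * g - γ - w) * (g + γ + w) = (n + 1) * (g ^ 2 - 1 - γ * w) := by
          linear_combination -hN
        have e3 : 0 < (n * g - γ - w) * (g + γ + w) := by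
          rw [e2]
          exact mul_pos (by linarith only [e]) (by linarith only [e1])
        exact (mul_pos_iff_of_pos_right (by linarith only [hw0, hη, hηD, hD1])).1 e3
    exact (mul_pos_iff_of_pos_left (by linarith only [hn0])).1 key
  have hx2 : x2 = n * η + ζ := by
    have e1 : x2 = g + s * x1 - δ := by linarith only [hδ]
    have e2 : s * x1 = (n + 1) * η := by rw [hx1, ← hsn]; ring
    rw [e1, e2, hζ]
    linarith only [hD]
  have hc : n / 2 = s * b1 + n * b2 := by
    rw [hb1, hb2]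
    ring
  have hKey := C.key (by linarith only [hb2]) rh1 hs0.le (by linarith only [hn0]) hf1 hx1 hx2 hη hζ0.le
  have hK2 : 0 < (-f2 - 1) * ζ := mul_pos (by linarith only [hq]) hζ0
  have hDq := C.Dq hx1 hx2
  rw [hl] at hDq
  rw [hb2] at hKey
  have hζ2 : ζ < 2 := by linarith only [hKey, hK2]
  have hgD : g = D + ζ := by linarith only [hζ]
  obtain ⟨q, hqd⟩ : ∃ q, q = -(s * f1 + n * f2) := ⟨_, rfl⟩
  have hDq' : η * q < D := by
    rw [hqd]
    linarith only [hK2, hDq, hgD]
  have hnD : n * D - η = w := by linarith only [hS, hηD, (by ring : (n + 1) * D = n * D + D)]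
  -- index `1` is impossible
  have hw1 : 1 ≤ w := by
    have v : 1 ≤ n * q := by
      rcases C.vh1 (by linarith only [hb2]) rh1 hs0 (by linarith only [hn0]) hf1 hx1 hx2 hη hζ0.le hc with v | v
      · rw [hb2] at v
        linarith only [hD1, hζ, hζ0, v]
      · rw [← hqd] at v
        have e : 2 * (n / 2) * q = n * q := by ring
        linarith only [v]
    have e1 := mul_le_mul_of_nonneg_left v hη.le
    have e2 := mul_lt_mul_of_pos_left hDq' (by linarith only [hn0] : 0 < n)
    rcases hwz with e3 | e3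
    · linarith only [hnD, e1, e2, e3]
    · exact e3
  rcases hn1 with ⟨e, -⟩ | hn2
  · exact hgold e hw1
  -- `Q`
  have hQ : g ≤ (n - 1) * (γ + w) := by
    have e1 := h.r1 _ _ _ w3
    obtain ⟨y2, hy2⟩ : ∃ y2, y2 = s * (γ + w) - y1 := ⟨_, rfl⟩
    have e2 : 2 * b1 * w + 2 * bO * (γ + w) - y1 = y2 := by rw [hy2, hb1, hsd]; ring
    rw [e2] at e1
    have e3 : 1 ≤ y2 := by
      rcases (h.z0 e1 (by linarith only [hw1])).2.1 with e4 | e4
      · exfalso
        have e5 := h.n _ _ _ e1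
        rw [e4, hl] at e5
        obtain ⟨e6, e7⟩ := a2_one (y := w) (z := γ + w) hw1 (by linarith only [d2, hw0]) (by linarith only [e5])
        linarith only [d2, e6, e7]
      · exact e4
    have e4 := h.r0 _ _ _ (h.r2 _ _ _ e1)
    have e5 : 2 * b1 * y2 + 2 * b2 * (2 * b2 * w + 2 * bO * y2 - (γ + w)) - w = s * y2 - (γ + w) := by
      rw [hb1, hl, hsd]
      ring
    rw [e5] at e4
    have e6 := z1n (h.z1 e4 (by linarith only [e3])).1
    have e7 : s * y2 - (γ + w) = (n - 1) * (γ + w) - g := by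
      rw [hy2, hn]
      linear_combination hw - hδg
    linarith
  -- `h2 = (n, s (n - 1))`
  have rh2 : R 0 n (s * (n - 1)) := by
    have := h.r2 _ _ _ (h.r1 _ _ _ (h.r2 _ _ _ h.e1))
    have e1 : 2 * b2 * 0 + 2 * bO * 1 - 0 = s := by rw [hsd]; ring
    rw [e1] at this
    have e2 : 2 * b1 * 0 + 2 * bO * s - 1 = n := by rw [hn, ← hsd]; ring
    rw [e2] at this
    have e3 : 2 * b2 * 0 + 2 * bO * n - s = s * (n - 1) := by rw [← hsd]; ring
    rw [e3] at this
    exact this
  have hnz : n ≠ 0 := by linarith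
  -- the key lemma at `h2`
  have hh2 : n * f1 + s * (n - 1) * f2 < 0 → 2 * n ≤ n * g - w → False := by
    intro e1 e2
    have e3 : x1 = n * (x1 / n) := by field_simp
    have e4 : x2 = s * (n - 1) * (x1 / n) + (n * g - w) / n := by
      rw [hx2, hx1, hζ, hηD]
      have e5 : s * (n - 1) * (s * (g + γ - D) / n) = (n - 1) * (n + 1) * (g + γ - D) / n := by
        rw [← hsn]
        ring
      rw [e5]
      field_simp
      linear_combination -hS
    have e5 := C.key (by linarith only [hb2]) rh2 (by linarith only [hn2]) (mul_pos hs0 (by linarith only [hn2])) e1 e3 e4 (by positivity)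
      (div_nonneg (by linarith only [hn2, e2]) (by linarith only [hn2]))
    have e6 : 2 ≤ (n * g - w) / n := by
      rw [le_div_iff₀ (by linarith only [hn2])]
      linarith only [e2]
    rw [hb2] at e5
    have e7 : 0 ≤ (-f2 - 1) * ((n * g - w) / n) := mul_nonneg (by linarith only [hq]) (by linarith only [e6])
    linarith
  -- `φ h2 ≥ 0`
  have hqq : 0 ≤ n * f1 + s * (n - 1) * f2 → n * q ≤ -f2 := by
    intro e1
    have e2 : 0 ≤ s * (n * f1 + s * (n - 1) * f2) := mul_nonneg hs0.le e1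
    have e3 : s * (n * f1 + s * (n - 1) * f2) = n * (s * f1) + (n + 1) * (n - 1) * f2 := by
      rw [← hsn]
      ring
    rw [hqd]
    linarith only [e2, e3, (by ring : n * -(s * f1 + n * f2) = -(n * (s * f1)) - n ^ 2 * f2),
      (by ring : (n + 1) * (n - 1) * f2 = n ^ 2 * f2 - f2)]
  have hηw : η = n * D - w := by linarith
  -- index `2`
  have hV : n ≤ 3 → ¬ (g - 1 / (n + 1) * η - 1 / 2 * ζ < 1) := by
    intro e0 e1
    have e2 := h2_V hn2 e0 d2 d3 hw1 hN hT (by linarith only [hζ0, hgD] : D ≤ g)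
    have e3 : (D + w) / (n + 1) + (g - D) / 2 = g - 1 / (n + 1) * η - 1 / 2 * ζ := by
      rw [hηw, hζ]
      have : n + 1 ≠ 0 := by linarith only [hn2]
      field_simp
      ring
    linarith only [e1, e2, e3]
  have hq0 : 0 < q := by rw [hqd]; linarith only [hf1]
  have hgq : g = η * q + -f2 * ζ := by
    rw [hqd]
    linarith only [hDq]
  rcases hl7 (by linarith only [hsn, hn2]) rfl with hn3 | hn3 | hn3
  all_goals rw [← hn] at hn3
  · -- `m_O = 6`
    have k1 : γ - w ≥ 0 := by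
      rw [hn3] at hT
      linarith only [hT]
    have k2 : (g - γ) ^ 2 + (g - γ) * (γ - w) + (γ - w) ^ 2 = 3 := by
      rw [hn3] at hN
      linear_combination hN
    have k3 : 1.7 ≤ g - w := by
      by_contra hcon
      have e1 : (g - w) ^ 2 < 1.7 ^ 2 := pow_lt_pow_left₀ (not_le.1 hcon) (by linarith only [d3, k1]) (by norm_num)
      have e2 : 0 ≤ (g - γ) * (γ - w) := mul_nonneg (by linarith only [d3]) (by linarith only [k1])
      have e3 : (g - w) ^ 2 = (g - γ) ^ 2 + 2 * ((g - γ) * (γ - w)) + (γ - w) ^ 2 := by ring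
      rw [e3] at e1
      linarith only [k2, e1, e2]
    rcases lt_or_ge (n * f1 + s * (n - 1) * f2) 0 with e | e
    · exact hh2 e (by rw [hn3]; linarith only [hw1, k3])
    · have e1 := hqq e
      rw [hn3] at e1 hζn hS
      obtain ⟨θ, hθ⟩ : ∃ θ, θ = η - D := ⟨_, rfl⟩
      have hθ0 : 0 ≤ θ := by linarith only [hS, hηD, k1, k3, hθ]
      have hθζ : 1 ≤ θ / 2 + ζ := by linarith only [d3, hS, hηD, hgD, k3, hθ]
      have hgq2 : (η + 2 * ζ) * q ≤ g := by
        have := mul_le_mul_of_nonneg_right e1 hζ0.le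
        linarith only [hgq, this]
      have hc1 : (1 : ℝ) = s * b1 + n * b2 := by rw [← hc, hn3]; norm_num
      rcases C.vh (by linarith only [hb2]) rh1 hs0 (by linarith only [hn3]) hf1 hx1 hx2 hη hζ0.le hc1
        with v | ⟨m, v1, v2, v3⟩ | ⟨m, v1, v2, v3, v4⟩ | ⟨v1, v2⟩
      · rw [hb2] at v
        linarith only [hζ2, hw1, k3, v]
      · rw [sq_one_eq, sq_one_eq] at v2 v3
        rw [← hqd] at v2
        rcases Nat.eq_zero_or_pos m with hm | hm
        · subst hm
          push_cast at v3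
          apply hV (by linarith only [hn3])
          rw [hb2] at v3
          rw [hn3]
          norm_num at v3 ⊢
          linarith only [v3]
        · push_cast at v2 v3
          obtain ⟨M, hM⟩ : ∃ M : ℝ, M = m := ⟨_, rfl⟩
          have hM0 : 1 ≤ M := by rw [hM]; exact_mod_cast hm
          rw [← hM] at v2 v3
          have u1 : (M + 1) * (η + 2 * ζ) ≤ (M + 2) * g := by
            have e2 := mul_le_mul_of_nonneg_right v2 (by linarith only [hgD, hw1, k3, hθ, hθ0, hθζ] : 0 ≤ η + 2 * ζ)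
            have e3 := mul_le_mul_of_nonneg_left hgq2 (by linarith only [hM0] : 0 ≤ M + 2)
            linarith only [e2, e3]
          have u2 : (M + 1) / (M + 2 + 1) * η = (M + 1) * η / (M + 3) := by
            rw [show M + 2 + 1 = M + 3 by ring]
            ring
          rw [u2, hb2] at v3
          have u3 : (M + 3) * (g - 1 / 2 * ζ - 1) < (M + 1) * η := by
            have : g - 1 / 2 * ζ - 1 < (M + 1) * η / (M + 3) := by linarith only [v3]
            rw [lt_div_iff₀ (by linarith only [hM0])] at this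
            linarith only [this]
          have u4 : η = D + θ := by linarith only [hθ]
          rw [u4, hgD] at u1 u3
          have u5 : 0 ≤ (M - 1) * θ := mul_nonneg (by linarith only [hM0]) hθ0
          have u6 : 0 ≤ (M - 1) * ζ := mul_nonneg (by linarith only [hM0]) hζ0.le
          have u7 : (M + 3) * 1 ≤ (M + 3) * (θ / 2 + ζ) := mul_le_mul_of_nonneg_left hθζ (by linarith only [hM0])
          linarith only [u1, u3, u5, u6, u7]
      · rw [sq_one_eq] at v2
        push_cast at v2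
        have : (0 : ℝ) ≤ m := Nat.cast_nonneg m
        linarith only [v2]
      · have u1 := om_lim (c := 1) (ω := 1) (κ := -(s * f1 + n * f2)) le_rfl (by norm_num) one_pos le_rfl (by
          intro n
          exact v2 n)
        rw [← hqd] at u1
        have u2 := mul_le_mul_of_nonneg_left u1 (by linarith only [hgD, hw1, k3, hθ, hθ0, hθζ] : 0 ≤ η + 2 * ζ)
        linarith only [hgD, hθ, hθ0, hθζ, hgq2, u2]
  · -- `m_O = 7`
    have hn4 : n < 3 := by
      by_contra hcon
      rw [not_lt] at hcon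
      have e1 : 0 ≤ (n - 3) * n ^ 2 := mul_nonneg (by linarith only [hcon]) (sq_nonneg n)
      have e2 : 0 ≤ n * (n - 3) := mul_nonneg (by linarith only [hcon]) (by linarith only [hcon])
      linarith only [hn3, hcon, e1, e2, (by ring : (n - 3) * n ^ 2 = n ^ 3 - 3 * n ^ 2), (by ring : n * (n - 3) = n ^ 2 - 3 * n)]
    have hn5 : 2 < n := by
      rcases hn2.eq_or_lt with e | e
      · exfalso
        rw [← e] at hn3
        norm_num at hn3
      · exact e
    have hc1 : 1 ≤ n / 2 := by linarith only [hn5]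
    have hn21 : 0 < n ^ 2 - 1 := by
      have := mul_pos (by linarith only [hc1] : 0 < n - 1) (by linarith only [hc1] : 0 < n + 1)
      linarith only [this, (by ring : (n - 1) * (n + 1) = n ^ 2 - 1)]
    have hn7 : n < 2.248 := by
      by_contra hcon
      rw [not_lt] at hcon
      have k1 : 0 ≤ (n - 2.248) * (n ^ 2 + 0.248 * n - 0.4425) :=
        mul_nonneg (by linarith only [hcon]) (by linarith only [hcon, sq_nonneg n])
      have k2 : (n - 2.248) * (n ^ 2 + 0.248 * n - 0.4425) = n ^ 3 - 2 * n ^ 2 - 1.000004 * n + 0.99474 := by ring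
      linarith
    -- index at least `3`
    have fin : n ≤ (n ^ 2 - 1) * q → False := by
      intro e0
      have e1 : g + γ + w ≤ n * (n + 1) * w := by
        have k1 := mul_le_mul_of_nonneg_right e0 hη.le
        have k2 := mul_le_mul_of_nonneg_left hDq'.le hn21.le
        have k3 : n * η ≤ (n ^ 2 - 1) * D := by linarith only [k1, k2]
        rw [hηw] at k3
        have k4 : D ≤ n * w := by linarith only [k3, (by ring : n * (n * D - w) = n ^ 2 * D - n * w)]
        have k5 := mul_le_mul_of_nonneg_left k4 (by linarith only [hc1] : 0 ≤ n + 1)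
        linarith only [hS, k5]
      have e2 := h2_seven hn3 hn5 d2 d3 hw1 hN hQ hT e1
      rcases lt_or_ge (n * f1 + s * (n - 1) * f2) 0 with e | e
      · exact hh2 e (by linarith only [d2, hn7, e2])
      · have e3 := hqq e
        have hn6 : 2.246 < n := by
          by_contra hcon
          rw [not_lt] at hcon
          have k1 : 0 ≤ (n - 2) * (2.246 - n) := mul_nonneg (by linarith only [hc1]) (by linarith only [hcon])
          have k2 : 0 ≤ n * ((n - 2) * (2.246 - n)) := mul_nonneg (by linarith only [hc1]) k1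
          have k3 : n * ((n - 2) * (2.246 - n)) = -n ^ 3 + 4.246 * n ^ 2 - 4.492 * n := by ring
          have k4 : (n - 2) * (2.246 - n) = -n ^ 2 + 4.246 * n - 4.492 := by ring
          linarith
        -- `(n^2 + 1) ζ < 2 (n^2 - 1)`
        have k1 : n ^ 2 ≤ (n ^ 2 - 1) * -f2 := by
          have m1 : n * n ≤ n * ((n ^ 2 - 1) * q) := mul_le_mul_of_nonneg_left e0 (by linarith only [hn6])
          have m2 : (n ^ 2 - 1) * (n * q) ≤ (n ^ 2 - 1) * -f2 := mul_le_mul_of_nonneg_left e3 hn21.le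
          linarith only [m1, m2, (by ring : n * n = n ^ 2), (by ring : n * ((n ^ 2 - 1) * q) = (n ^ 2 - 1) * (n * q))]
        have k2 : (n ^ 2 + 1) * ζ < 2 * (n ^ 2 - 1) := by
          have m1 : (n ^ 2 - 1) * ((-f2 - 1 / 2) * ζ) < (n ^ 2 - 1) * 1 := mul_lt_mul_of_pos_left hKey hn21
          have m2 := mul_le_mul_of_nonneg_right k1 hζ0.le
          linarith only [m1, m2]
        have k3 : 4.4 * (n ^ 2 + 1) ≤ (n + 1) * ((n ^ 2 + 1) * ζ) := by
          have m1 : (n ^ 2 + 1) * 4.4 ≤ (n ^ 2 + 1) * ((n + 1) * ζ) :=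
            mul_le_mul_of_nonneg_left (by linarith only [hζn, e2]) (by positivity)
          linarith only [m1]
        have k4 := mul_lt_mul_of_pos_left k2 (by linarith only [hn6] : 0 < n + 1)
        have k5 : 5.04 < n ^ 2 := by
          have := mul_pos (by linarith only [hn6] : 0 < n - 2.246) (by linarith only [hn6] : 0 < n + 2.246)
          linarith only [this, (by ring : (n - 2.246) * (n + 2.246) = n ^ 2 - 5.044516)]
        have k6 : n ^ 2 < 5.054 := by
          have := mul_pos (by linarith only [hn7] : 0 < 2.248 - n) (by linarith only [hn6] : 0 < n + 2.248)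
          linarith only [this, (by ring : (2.248 - n) * (n + 2.248) = 5.053504 - n ^ 2)]
        have k7 : (n + 1) * (2 * (n ^ 2 - 1)) ≤ 3.248 * (2 * 4.054) :=
          mul_le_mul (by linarith only [hn7]) (by linarith only [k6]) (by linarith only [k5]) (by norm_num)
        linarith only [k3, k4, k5, k7]
    rcases C.vh (by linarith only [hb2]) rh1 hs0 (by linarith only [hc1]) hf1 hx1 hx2 hη hζ0.le hc
      with v | ⟨m, v1, v2, v3⟩ | ⟨m, v1, v2, v3, v4⟩ | ⟨v1, v2⟩
    · rw [hb2] at v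
      linarith only [hD1, hζ, hζ0, v]
    · have a1 : sq (n / 2) 1 = 1 := rfl
      have a2 : sq (n / 2) 2 = n := by
        have : sq (n / 2) 2 = 2 * (n / 2) * 1 - 0 := rfl
        rw [this]
        ring
      rcases Nat.eq_zero_or_pos m with hm | hm
      · subst hm
        rw [zero_add, zero_add, a1, a2, hb2] at v3
        exact hV hn4.le v3
      · obtain ⟨l, rfl⟩ : ∃ l, m = l + 1 := ⟨m - 1, by omega⟩
        have u1 := sq_diff3 (n / 2) l
        have u2 := (sq_grow hc1 l).1
        have u3 := v1 (l + 1 + 1) (by omega) (by omega)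
        have u4 : (0 : ℝ) ≤ (l : ℝ) := Nat.cast_nonneg l
        have u5 : sq (n / 2) (l + 1 + 2) = sq (n / 2) (l + 3) := rfl
        have u6 : sq (n / 2) (l + 1 + 1) = sq (n / 2) (l + 2) := rfl
        rw [u5, u6, ← hqd] at v2
        rw [u6] at u3
        have u7 : 2 * (n / 2) = n := by ring
        rw [u7] at u1
        apply fin
        -- `s_(l+2) n ≤ s_(l+3) n q ≤ s_(l+2) (n^2-1) q`
        have k1 := mul_le_mul_of_nonneg_left v2 (by linarith only [hc1] : 0 ≤ n)
        have k2 : sq (n / 2) (l + 3) * n * q ≤ sq (n / 2) (l + 2) * (n ^ 2 - 1) * q :=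
          mul_le_mul_of_nonneg_right (by linarith only [u1, u2]) hq0.le
        have k3 : sq (n / 2) (l + 2) * n ≤ sq (n / 2) (l + 2) * ((n ^ 2 - 1) * q) := by linarith only [k1, k2]
        exact le_of_mul_le_mul_left k3 (by linarith only [u3])
    · have := (sq_grow hc1 (m + 2)).1
      push_cast at this
      have : (0 : ℝ) ≤ m := Nat.cast_nonneg m
      linarith
    · have u1 := v2 2
      have a2 : sq (n / 2) 2 = n := by
        have : sq (n / 2) 2 = 2 * (n / 2) * 1 - 0 := rfl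
        rw [this]
        ring
      have a3 : sq (n / 2) (2 + 1) = n ^ 2 - 1 := by
        have : sq (n / 2) (2 + 1) = 2 * (n / 2) * sq (n / 2) 2 - 1 := rfl
        rw [this, a2]
        ring
      rw [a2, a3, ← hqd] at u1
      exact fin (by linarith only [u1])
  · have := lemM hn3 (by linarith only [hn2]) d2 d3 hw1 hN hQ hT
    have e1 := mul_lt_mul_of_pos_left hζ2 (by linarith only [hn2] : 0 < n + 1)
    linarith only [hζn, this, e1]

/-- **`F` beyond `V_2`, `b2 ≥ 1/2`** -/
theorem ngbI : NGbI := by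
  intro b1 b2 bO R g x1 x2 f1 f2 r1 r2 be1 be2 C hB hb rh h1 hf hu
  obtain ⟨l1, l2⟩ := C.lab hB hb
  obtain ⟨k1, k2, k3⟩ := C.F2 l2 hb rh h1 hf
  rcases C.cls hB hb rh h1 hf with e | ⟨e1, e2⟩ | ⟨e1, e2, e3⟩
  · rw [e] at l2 k3
    have k3' : x2 - 2 * bO * x1 < g := by linarith only [k3]
    rcases C.rt.b1z with e1 | e1
    · exact C.beta_zero e (by linarith only [e1]) l2 k1 k3' rh h1 hf hu
    · have hbs := C.rt.swap0.bOs
      rcases hbs with e4 | e4 | e4
      · linarith only [e1, e4]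
      · exact C.beta_one e e4 l2 k1 k2 k3'
      · exact C.beta_big e e1 e4 l2 k1 k2 k3'
  · exact C.two e1 e2 hb l2 rh h1 hf
  · exact C.gold e1 e2 hb e3 l2 rh h1 hf hu

end Pool.Agent.Helper59.DY
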