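import Pool.Agent.Helper59.DY.NGbC

/-!
# `F` beyond `V_2`: the key lemma and the information of the other vertices (MP_d13a5e_al)
-/

set_option autoImplicit false

namespace Pool.Agent.Helper59.DY

open _root_.DY (Z1 sq Str Beyond)
open Pool.Agent.Helper62.DY (RT sq_zero sq_one sq_rec cheb_id sq_grow one_le_of_all om_lim)

section vertex

variable {c f r : ℝ}

/-- the information of a vertex with labels, five cases, not strict -/
theorem vc (hS : Str c f r) (hc : 0 ≤ c) (hf : f < 0) (h1 : ∀ n, 0 < sq c (n + 1) → 1 ≤ sq c (n + 1))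
    (h2 : ∀ n, 0 < sq c (n + 1) → 0 ≤ sq c (n + 2)) :
    0 < r ∨ (c = 0 ∧ 0 ≤ r) ∨
    (∃ m, (∀ n, 1 ≤ n → n ≤ m + 3 → 1 ≤ sq c n) ∧ sq c (m + 1) ≤ sq c (m + 2) * -f ∧
      -(sq c (m + 1) / (sq c (m + 2) + 1)) < r) ∨
    (∃ m, (∀ n, 1 ≤ n → n ≤ m + 2 → 1 ≤ sq c n) ∧ sq c (m + 2) = 1 ∧ sq c (m + 1) = 2 * c ∧ 2 * c ≤ -f) ∨
    (1 ≤ c ∧ ∀ n, sq c n ≤ -f * sq c (n + 1)) := by
  classical
  have pos1 : ∀ k, (∀ i ≤ k, 0 < sq c (i + 1)) → ∀ n, 1 ≤ n → n ≤ k + 1 → 1 ≤ sq c n := by
    intro k hk n hn1 hn2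
    obtain ⟨m, rfl⟩ : ∃ m, n = m + 1 := ⟨n - 1, by omega⟩
    exact h1 m (hk m (by omega))
  by_cases hP : ∃ k, (∀ i ≤ k, 0 < sq c (i + 1)) ∧ 0 < sq c (k + 1) * f + sq c k
  · obtain ⟨hk1, hk2⟩ := Nat.find_spec hP
    have hmin : ∀ i < Nat.find hP, sq c (i + 1) * f + sq c i ≤ 0 := by
      intro i hi
      by_contra hcon
      exact Nat.find_min hP hi ⟨fun j hj => hk1 j (by omega), not_le.1 hcon⟩
    have hnk := hS.nk hf _ hk1 hmin hk2
    generalize Nat.find hP = K at hk1 hk2 hmin hnk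
    rcases Nat.eq_zero_or_pos K with hK | hK
    · exfalso
      subst hK
      rw [sq_zero] at hk2
      have : sq c (0 + 1) = 1 := rfl
      rw [this] at hk2
      linarith
    · obtain ⟨m, rfl⟩ : ∃ m, K = m + 1 := ⟨K - 1, by omega⟩
      rcases Nat.eq_zero_or_pos m with hm | hm
      · left
        subst hm
        have e1 : sq c (0 + 1) = 1 := rfl
        rw [e1] at hnk
        have e2 := hk1 (0 + 1) le_rfl
        have e3 : 0 < sq c (0 + 1 + 1) * r := by linarith
        by_contra hcon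
        have := mul_nonpos_of_nonneg_of_nonpos e2.le (not_lt.1 hcon)
        linarith
      · obtain ⟨l, rfl⟩ : ∃ l, m = l + 1 := ⟨m - 1, by omega⟩
        right; right; left
        have hs := pos1 (l + 1 + 1) hk1
        refine ⟨l, fun n h1 h2 => hs n h1 h2, ?_, ?_⟩
        · have e1 := hmin (l + 1) (by omega)
          have e3 : sq c (l + 1 + 1) = sq c (l + 2) := rfl
          rw [e3] at e1
          linarith
        · have e2 := hs (l + 3) (by omega) le_rfl
          have e4 := hs (l + 2) (by omega) (by omega)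
          have e5 := hs (l + 1) (by omega) (by omega)
          have e6 := cheb_id (b := c) (sq_zero c) (sq_one c) (sq_rec c) (l + 1)
          have e7 : sq c (l + 1 + 2) = sq c (l + 3) := rfl
          have e8 : sq c (l + 1 + 1) = sq c (l + 2) := rfl
          have e9 : sq c (l + 1 + 1 + 1) = sq c (l + 3) := rfl
          rw [e7, e8] at e6
          rw [e9, e8] at hnk
          have e10 : sq c (l + 1) / (sq c (l + 2) + 1) = (sq c (l + 2) - 1) / sq c (l + 3) := by
            rw [div_eq_div_iff (by linarith) (by linarith)]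
            linarith
          rw [e10, neg_lt, div_eq_mul_inv]
          have e11 : -r * sq c (l + 3) < sq c (l + 2) - 1 := by linarith
          have e12 : -r = -r * sq c (l + 3) * (sq c (l + 3))⁻¹ := by
            field_simp
          rw [e12]
          exact mul_lt_mul_of_pos_right e11 (by positivity)
  · have hP' : ∀ k, (∀ i ≤ k, 0 < sq c (i + 1)) → sq c (k + 1) * f + sq c k ≤ 0 := by
      intro k hk
      by_contra hcon
      exact hP ⟨k, hk, not_le.1 hcon⟩
    by_cases hQ : ∀ i, 0 < sq c (i + 1)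
    · right; right; right; right
      refine ⟨one_le_of_all hc (fun n => h1 n (hQ n)), ?_⟩
      intro n
      have := hP' n (fun i _ => hQ i)
      linarith
    · -- finite order
      have hQ' : ∃ i, sq c (i + 1) ≤ 0 := by
        by_contra hcon
        apply hQ
        intro i
        by_contra h3
        exact hcon ⟨i, not_lt.1 h3⟩
      have hM := Nat.find_spec hQ'
      have hmin : ∀ i < Nat.find hQ', 0 < sq c (i + 1) := by
        intro i hi
        exact not_le.1 (Nat.find_min hQ' hi)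
      generalize Nat.find hQ' = K at hM hmin
      rcases Nat.eq_zero_or_pos K with hK | hK
      · exfalso
        subst hK
        have : sq c (0 + 1) = 1 := rfl
        rw [this] at hM
        linarith
      · obtain ⟨M, rfl⟩ : ∃ M, K = M + 1 := ⟨K - 1, by omega⟩
        have e1 := hmin M (by omega)
        have e2 := h2 M e1
        have e3 : sq c (M + 2) = 0 := le_antisymm hM e2
        have e4 := cheb_id (b := c) (sq_zero c) (sq_one c) (sq_rec c) M
        have e5 : sq c (M + 1) = 1 := by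
          rw [e3, zero_mul] at e4
          nlinarith [h1 M e1]
        have e6 : sq c M = 2 * c := by
          have := sq_rec c M
          rw [e3, e5] at this
          linarith
        have e7 := hP' M (fun i hi => hmin i (by omega))
        rw [e5, e6] at e7
        have hs := pos1 M (fun i hi => hmin i (by omega))
        rcases Nat.eq_zero_or_pos M with h3 | h3
        · right; left
          subst h3
          rw [sq_zero] at e6
          have hc0 : c = 0 := by linarith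
          refine ⟨hc0, ?_⟩
          have := hS.foot
          linarith
        · obtain ⟨m, rfl⟩ : ∃ m, M = m + 1 := ⟨M - 1, by omega⟩
          right; right; right; left
          exact ⟨m, fun n h1 h2 => hs n h1 h2, e5, e6, by linarith⟩

end vertex

section cf

variable {b1 b2 bO : ℝ} {R : ℝ → ℝ → ℝ → Prop} {g x1 x2 f1 f2 r1 r2 : ℝ}

theorem z1n {α : ℝ} (h : Z1 α) : 0 ≤ α := by
  rcases h with h | h <;> linarith

/-- the labels and the value at `d2` -/
theorem Cf.lab (C : Cf b1 b2 bO R g x1 x2 f1 f2 r1 r2) (hB : Beyond b2 f2) (hb : 1 ≤ 2 * b2) :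
    b2 < 1 ∧ 2 * b2 < -f2 := by
  classical
  have h := C.rt
  rcases le_or_gt 1 b2 with h1 | h1
  · -- infinite order
    exfalso
    have hq : ∀ n, sq b2 n ≤ -f2 * sq b2 (n + 1) := by
      intro n
      have := hB n (fun i _ => by
        have := sq_grow h1 (i + 1)
        have h2 : (0 : ℝ) ≤ (i : ℝ) := Nat.cast_nonneg i
        have h3 := this.1
        push_cast at h3
        linarith)
      linarith
    obtain ⟨y, hy⟩ : ∃ y, y = Real.sqrt (b2 ^ 2 - 1) := ⟨_, rfl⟩
    have hy0 : 0 ≤ y := by rw [hy]; exact Real.sqrt_nonneg _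
    have hy2 : y ^ 2 = b2 ^ 2 - 1 := by
      rw [hy]
      exact Real.sq_sqrt (by nlinarith)
    have w1 : (b2 - y) ^ 2 - 2 * b2 * (b2 - y) + 1 = 0 := by linear_combination hy2
    have w2 : 0 < b2 - y := by nlinarith
    have w3 : b2 - y ≤ 1 := by
      by_contra hcon
      rw [not_le] at hcon
      nlinarith
    have w4 := om_lim h1 w1 w2 w3 hq
    have k1 : -f2 < 1 := by
      by_contra hcon
      rw [not_lt] at hcon
      have e1 := C.C0
      have hc := C.cR
      have e2 : b1 * x1 + b2 * x2 - g ≤ -f2 * (b1 * x1 + b2 * x2 - g) := by nlinarith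
      have hb1 := h.b1n
      have hbO := h.bOn
      have p1 := C.p1
      have p2 := C.p2
      have hg := C.g1
      have k1 : 0 ≤ (b2 - 1) * g := mul_nonneg (by linarith) (by linarith)
      have k2 : 0 ≤ (b2 - 1) * x2 := mul_nonneg (by linarith) (by linarith)
      have k3 : 0 ≤ (b1 + bO) * x1 := mul_nonneg (by linarith) (by linarith)
      linarith
    have k2 := C.qp
    have k3 : 1 + f2 ^ 2 + 2 * b2 * f2 = (-f2 - (b2 - y)) * (-f2 - (b2 + y)) := by linear_combination hy2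
    rw [k3] at k2
    have k4 : (-f2 - (b2 - y)) * (-f2 - (b2 + y)) ≤ 0 :=
      mul_nonpos_of_nonneg_of_nonpos (by linarith) (by linarith)
    linarith
  · refine ⟨h1, ?_⟩
    have hQ' : ∃ i, sq b2 (i + 1) ≤ 0 := by
      by_contra hcon
      have := one_le_of_all h.b2n (fun n => h.pge n (by
        by_contra h3
        exact hcon ⟨n, not_lt.1 h3⟩))
      linarith
    have hM := Nat.find_spec hQ'
    have hmin : ∀ i < Nat.find hQ', 0 < sq b2 (i + 1) := by
      intro i hi
      exact not_le.1 (Nat.find_min hQ' hi)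
    generalize Nat.find hQ' = K at hM hmin
    rcases Nat.eq_zero_or_pos K with hK | hK
    · exfalso
      subst hK
      have : sq b2 (0 + 1) = 1 := rfl
      rw [this] at hM
      linarith
    · obtain ⟨M, rfl⟩ : ∃ M, K = M + 1 := ⟨K - 1, by omega⟩
      have e1 := hmin M (by omega)
      have e2 := h.pnn M e1
      have e3 : sq b2 (M + 2) = 0 := le_antisymm hM e2
      have e4 := cheb_id (b := b2) (sq_zero b2) (sq_one b2) (sq_rec b2) M
      have e5 : sq b2 (M + 1) = 1 := by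
        rw [e3, zero_mul] at e4
        nlinarith [h.pge M e1]
      have e6 : sq b2 M = 2 * b2 := by
        have := sq_rec b2 M
        rw [e3, e5] at this
        linarith
      have e7 := hB M (fun i hi => hmin i (by omega))
      have e8 := C.nz M e1
      rw [e5, e6] at e7 e8
      have e9 := lt_of_le_of_ne e7 e8
      linarith

/-- the slope of `h` -/
theorem Cf.slope (C : Cf b1 b2 bO R g x1 x2 f1 f2 r1 r2) {be1 be2 : ℝ} (rh : R 0 be1 be2) (h1 : 1 ≤ be1)
    (hf : be1 * f1 + be2 * f2 < 0) : 1 ≤ be2 ∧ be2 ≤ 2 * bO * be1 := by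
  have h := C.rt
  have e1 := (h.z1 rh (by linarith)).2.2
  have e2 : 1 ≤ be2 := by
    rcases e1 with e1 | e1
    · exfalso
      rw [e1] at hf
      have := mul_nonneg (by linarith : 0 ≤ be1) C.hf1
      linarith
    · exact e1
  refine ⟨e2, ?_⟩
  have e3 := h.r2 _ _ _ rh
  have e4 := z1n (h.z1 e3 (by linarith)).2.2
  linarith

/-- **(F2)** -/
theorem Cf.F2 (C : Cf b1 b2 bO R g x1 x2 f1 f2 r1 r2) (hq : 2 * b2 < -f2) (hb : 1 ≤ 2 * b2) {be1 be2 : ℝ}
    (rh : R 0 be1 be2) (h1 : 1 ≤ be1) (hf : be1 * f1 + be2 * f2 < 0) :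
    1 ≤ 2 * bO ∧ f1 + 2 * bO * f2 < 0 ∧ 2 * b2 * (x2 - 2 * bO * x1) < g := by
  obtain ⟨e1, e2⟩ := C.slope rh h1 hf
  have e3 : 1 ≤ 2 * bO := by
    rcases C.rt.bOz with e3 | e3
    · exfalso
      rw [e3] at e2
      linarith
    · exact e3
  have e4 : f1 + 2 * bO * f2 < 0 := by
    have k1 : 2 * bO * be1 * f2 ≤ be2 * f2 := mul_le_mul_of_nonpos_right e2 C.hf2.le
    have k2 : be1 * (f1 + 2 * bO * f2) < 0 := by linarith
    by_contra hcon
    have := mul_nonneg (by linarith : 0 ≤ be1) (not_lt.1 hcon)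
    linarith
  refine ⟨e3, e4, ?_⟩
  have hfz := C.fz
  have p1 := C.p1
  have hg := C.g1
  have e5 : -f2 * (x2 - 2 * bO * x1) < g := by
    have := mul_neg_of_pos_of_neg (by linarith : 0 < x1) e4
    linarith
  rcases le_total 0 (x2 - 2 * bO * x1) with e6 | e6
  · have := mul_le_mul_of_nonneg_right hq.le e6
    linarith
  · have := mul_nonpos_of_nonneg_of_nonpos (by linarith : 0 ≤ 2 * b2) e6
    linarith

/-- the possible labels `2 b2` -/
theorem lab_cases (h : RT b1 b2 bO R) (hb : 1 ≤ 2 * b2) :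
    2 * b2 = 1 ∨ (2 * b2) ^ 2 = 2 ∨ (2 * b2) ^ 2 = 2 * b2 + 1 ∨ 3 ≤ (2 * b2) ^ 2 := by
  rcases h.swap.swap0.bOs with h1 | h1 | h1
  · linarith
  · exact Or.inl h1
  · right
    have e2 : sq b2 2 = 2 * b2 := by
      have : sq b2 2 = 2 * b2 * 1 - 0 := rfl
      rw [this]
      ring
    have e3 : sq b2 3 = (2 * b2) ^ 2 - 1 := by
      have : sq b2 3 = 2 * b2 * sq b2 2 - 1 := rfl
      rw [this, e2]
      ring
    have e4 : sq b2 4 = 2 * b2 * ((2 * b2) ^ 2 - 2) := by
      have : sq b2 4 = 2 * b2 * sq b2 3 - sq b2 2 := rfl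
      rw [this, e2, e3]
      ring
    have e5 : sq b2 5 = (2 * b2) ^ 4 - 3 * (2 * b2) ^ 2 + 1 := by
      have : sq b2 5 = 2 * b2 * sq b2 4 - sq b2 3 := rfl
      rw [this, e3, e4]
      ring
    rcases h1.eq_or_lt with h2 | h2
    · exact Or.inl h2.symm
    · right
      have h4 : 0 < sq b2 (3 + 1) := by
        have : sq b2 (3 + 1) = sq b2 4 := rfl
        rw [this, e4]
        exact mul_pos (by linarith) (by linarith)
      have h5 := h.pnn 3 h4
      have h5' : sq b2 (3 + 2) = sq b2 5 := rfl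
      rw [h5'] at h5
      rcases h5.eq_or_lt with h6 | h6
      · left
        rw [e5] at h6
        have h7 : ((2 * b2) ^ 2 - 2 * b2 - 1) * ((2 * b2) ^ 2 + 2 * b2 - 1) = 0 := by linear_combination -h6
        rcases mul_eq_zero.1 h7 with h8 | h8
        · linarith
        · nlinarith
      · right
        have h7 := h.pge 4 h6
        have h7' : sq b2 (4 + 1) = sq b2 5 := rfl
        rw [h7', e5] at h7
        have h8 : 0 ≤ (2 * b2) ^ 2 * ((2 * b2) ^ 2 - 3) := by linarith
        have h9 : 0 < (2 * b2) ^ 2 := by positivity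
        have := (mul_nonneg_iff_of_pos_left h9).1 h8
        linarith

/-- **the classification of the labels** -/
theorem Cf.cls (C : Cf b1 b2 bO R g x1 x2 f1 f2 r1 r2) (hB : Beyond b2 f2) (hb : 1 ≤ 2 * b2) {be1 be2 : ℝ}
    (rh : R 0 be1 be2) (h1 : 1 ≤ be1) (hf : be1 * f1 + be2 * f2 < 0) :
    2 * b2 = 1 ∨ (b1 = 0 ∧ (2 * b2) ^ 2 = 2) ∨ (b1 = 0 ∧ (2 * b2) ^ 2 = 2 * b2 + 1 ∧ 2 * bO = 1) := by
  obtain ⟨l1, l2⟩ := C.lab hB hb
  obtain ⟨k1, k2, k3⟩ := C.F2 l2 hb rh h1 hf
  have h := C.rt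
  have hc := C.cR
  have hC0 : 2 * b2 * (b1 * x1 + b2 * x2 - g) < x2 - b2 * g - bO * x1 := by
    have := mul_le_mul_of_nonneg_right l2.le hc
    have := C.C0
    linarith
  have hn := h.n _ _ _ C.rx
  have key := class_ineq (by linarith : 0 < b2) l1 hn hc hC0 k3
  obtain ⟨p, hp⟩ : ∃ p, p = b2 ^ 2 := ⟨_, rfl⟩
  rw [← hp] at key
  have hl := lab_cases h hb
  have hsq : (2 * b2) ^ 2 = 4 * p := by rw [hp]; ring
  rcases hl with hl | hl
  · exact Or.inl hl
  · right
    have hp2 : 1 / 2 ≤ p := by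
      rw [hsq] at hl
      rcases hl with hl | hl | hl <;> linarith
    have hb27 : 0.7 ≤ b2 := by nlinarith
    have hb1 : b1 = 0 := by
      rcases h.b1z with h3 | h3
      · linarith
      · exfalso
        have e1 : b1 ^ 2 * (1 - 4 * p) ≤ 1 / 4 * (1 - 4 * p) :=
          mul_le_mul_of_nonpos_right (by nlinarith) (by linarith)
        have e2 : 2 * b1 * b2 * bO * (3 - 8 * p) ≤ b2 / 2 * (3 - 8 * p) := by
          refine mul_le_mul_of_nonpos_right ?_ (by linarith)
          have : 1 / 4 ≤ b1 * bO := by nlinarith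
          nlinarith
        have e3 : 8 * p * bO ^ 2 * (1 - 2 * p) ≤ 0 :=
          mul_nonpos_of_nonneg_of_nonpos (by positivity) (by linarith)
        have e4 : b2 / 2 * (3 - 8 * p) ≤ b2 / 2 * -1 := mul_le_mul_of_nonneg_left (by linarith) (by linarith)
        linarith
    have key2 : 0 < 1 + 2 * (2 * bO) ^ 2 * (1 - 2 * p) := by
      rw [hb1] at key
      have e : p + 0 ^ 2 * (1 - 4 * p) + 2 * 0 * b2 * bO * (3 - 8 * p) + 8 * p * bO ^ 2 * (1 - 2 * p) =
        p * (1 + 2 * (2 * bO) ^ 2 * (1 - 2 * p)) := by ring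
      rw [e] at key
      exact (mul_pos_iff_of_pos_left (by linarith)).1 key
    have hbO2 : 1 ≤ (2 * bO) ^ 2 := by nlinarith
    rcases hl with hl | hl | hl
    · exact Or.inl ⟨hb1, hl⟩
    · right
      refine ⟨hb1, hl, ?_⟩
      rcases h.bOs with h3 | h3 | h3
      · linarith
      · exact h3
      · exfalso
        have e1 : (2 * bO) ^ 2 * (1 - 2 * p) ≤ 2 * (1 - 2 * p) := mul_le_mul_of_nonpos_right h3 (by linarith)
        have e2 : 1.618 < 2 * b2 := by nlinarith
        rw [hsq] at hl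
        linarith
    · exfalso
      rw [hsq] at hl
      have e1 : (2 * bO) ^ 2 * (1 - 2 * p) ≤ 1 * (1 - 2 * p) := mul_le_mul_of_nonpos_right hbO2 (by linarith)
      linarith

/-- the roots of the plane of `t` and an `O`-root -/
theorem Cf.pencil (C : Cf b1 b2 bO R g x1 x2 f1 f2 r1 r2) {a1 a2 c : ℝ} (ha : R 0 a1 a2)
    (hc : c = a1 * b1 + a2 * b2) (n : ℕ) :
    R (sq c n) (sq c (n + 1) * a1) (sq c (n + 1) * a2) ∧ R (sq c (n + 1)) (sq c n * a1) (sq c n * a2) := by
  have hn := C.rt.n _ _ _ ha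
  induction n with
  | zero =>
    have e0 : sq c 0 = 0 := rfl
    have e1 : sq c (0 + 1) = 1 := rfl
    rw [e0, e1, one_mul, one_mul, zero_mul, zero_mul]
    exact ⟨ha, C.rt.e0⟩
  | succ n ih =>
    have hr : sq c (n + 1 + 1) = 2 * c * sq c (n + 1) - sq c n := rfl
    constructor
    · have h1 := C.ro _ _ _ _ _ ha ih.2
      have e : 2 * (b1 * a1 + b2 * a2) * sq c (n + 1) - 2 * (a1 - bO * a2) * (sq c n * a1) -
          2 * (a2 - bO * a1) * (sq c n * a2) = 2 * c * sq c (n + 1) - 2 * sq c n := by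
        rw [hc]
        linear_combination (-2 * sq (a1 * b1 + a2 * b2) n) * hn
      rw [e] at h1
      have e1 : sq c n * a1 + (2 * c * sq c (n + 1) - 2 * sq c n) * a1 = sq c (n + 1 + 1) * a1 := by
        rw [hr]
        ring
      have e2 : sq c n * a2 + (2 * c * sq c (n + 1) - 2 * sq c n) * a2 = sq c (n + 1 + 1) * a2 := by
        rw [hr]
        ring
      rw [e1, e2] at h1
      exact h1
    · have h1 := C.rt.r0 _ _ _ ih.1
      have e : 2 * b1 * (sq c (n + 1) * a1) + 2 * b2 * (sq c (n + 1) * a2) - sq c n = sq c (n + 1 + 1) := by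
        rw [hr, hc]
        ring
      rw [e] at h1
      exact h1

/-- **the key lemma (K)** -/
theorem Cf.key (C : Cf b1 b2 bO R g x1 x2 f1 f2 r1 r2) (hb : 1 ≤ 2 * b2) {a1 a2 η ζ : ℝ} (ha : R 0 a1 a2)
    (h1 : 0 ≤ a1) (h2 : 0 < a2) (hf : a1 * f1 + a2 * f2 < 0) (hx1 : x1 = a1 * η) (hx2 : x2 = a2 * η + ζ)
    (hη : 0 < η) (hζ : 0 ≤ ζ) : (-f2 - b2) * ζ < 1 := by
  have hS := C.st _ _ ha h1 h2
  have hc : 0 < a1 * b1 + a2 * b2 := by
    have := mul_nonneg h1 C.rt.b1n
    have := mul_pos h2 (by linarith : 0 < b2)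
    linarith
  have k1 := hS.K1 hc hf
  have hS2 := (C.st 0 1 C.rt.e2 le_rfl one_pos).foot
  have hle := C.le
  have hfz := C.fz
  rw [hx1, hx2] at hle hfz
  have k2 := mul_lt_mul_of_pos_left k1 hη
  have k3 : 0 ≤ (r2 + b2) * ζ := mul_nonneg (by linarith) hζ
  linarith

/-- `φ`: the value `D = g - 2 b2 ζ` -/
theorem Cf.Dq (C : Cf b1 b2 bO R g x1 x2 f1 f2 r1 r2) {a1 a2 η ζ : ℝ} (hx1 : x1 = a1 * η)
    (hx2 : x2 = a2 * η + ζ) : g - 2 * b2 * ζ = η * -(a1 * f1 + a2 * f2) + (-f2 - 2 * b2) * ζ := by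
  have hfz := C.fz
  rw [hx1, hx2] at hfz
  linarith

/-- the information of the vertex of `t` and an `O`-root -/
theorem Cf.vh (C : Cf b1 b2 bO R g x1 x2 f1 f2 r1 r2) (hb : 1 ≤ 2 * b2) {a1 a2 c η ζ : ℝ} (ha : R 0 a1 a2)
    (h1 : 0 < a1) (h2 : 0 < a2) (hf : a1 * f1 + a2 * f2 < 0) (hx1 : x1 = a1 * η) (hx2 : x2 = a2 * η + ζ)
    (hη : 0 < η) (hζ : 0 ≤ ζ) (hc : c = a1 * b1 + a2 * b2) :
    g - b2 * ζ < 1 ∨
    (∃ m, (∀ n, 1 ≤ n → n ≤ m + 3 → 1 ≤ sq c n) ∧ sq c (m + 1) ≤ sq c (m + 2) * -(a1 * f1 + a2 * f2) ∧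
      g - sq c (m + 1) / (sq c (m + 2) + 1) * η - b2 * ζ < 1) ∨
    (∃ m, (∀ n, 1 ≤ n → n ≤ m + 2 → 1 ≤ sq c n) ∧ sq c (m + 2) = 1 ∧ sq c (m + 1) = 2 * c ∧
      2 * c ≤ -(a1 * f1 + a2 * f2)) ∨
    (1 ≤ c ∧ ∀ n, sq c n ≤ -(a1 * f1 + a2 * f2) * sq c (n + 1)) := by
  have hS := C.st _ _ ha h1.le h2
  rw [← hc] at hS
  have hc0 : 0 < c := by
    rw [hc]
    have := mul_nonneg h1.le C.rt.b1n
    have := mul_pos h2 (by linarith : 0 < b2)
    linarith
  have hS2 := (C.st 0 1 C.rt.e2 le_rfl one_pos).foot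
  have hle := C.le
  rw [hx1, hx2] at hle
  have k3 : 0 ≤ (r2 + b2) * ζ := mul_nonneg (by linarith) hζ
  rcases vc hS hc0.le hf (fun n hn => (C.rt.z0 (C.pencil ha hc n).2 hn).1) (fun n hn => by
      have e1 := z1n (C.rt.z0 (C.pencil ha hc (n + 1)).1 hn).2.1
      have e2 : sq c (n + 1 + 1) = sq c (n + 2) := rfl
      rw [e2] at e1
      by_contra hcon
      have := mul_neg_of_neg_of_pos (not_le.1 hcon) h1
      linarith) with c1 | ⟨c1, c2⟩ | ⟨m, c1, c2, c3⟩ | c1 | c1
  · left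
    have := mul_pos hη c1
    linarith
  · exfalso
    linarith
  · right; left
    refine ⟨m, c1, c2, ?_⟩
    have := mul_lt_mul_of_pos_left c3 hη
    linarith
  · right; right; left
    exact c1
  · right; right; right
    exact c1

end cf

end Pool.Agent.Helper59.DY
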