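import Mathlib

/-!
# Real inequalities for `F` beyond `V_2` (MP_d13a5e_al)
-/

set_option autoImplicit false

namespace Pool.Agent.Helper59.DY

/-- a convex quadratic function which is negative at the ends of an interval -/
theorem conv_neg (q : ℝ → ℝ) (a b c : ℝ) (hq : ∀ x, q x = a * x ^ 2 + b * x + c) (ha : 0 ≤ a) {u v x : ℝ}
    (hu : q u < 0) (hv : q v < 0) (h1 : u ≤ x) (h2 : x ≤ v) : q x < 0 := by
  rcases (h1.trans h2).eq_or_lt with h3 | h3
  · have : x = u := le_antisymm (by rw [h3]; exact h2) h1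
    rw [this]
    exact hu
  · have h4 : 0 ≤ (v - x) * -q u := mul_nonneg (by linarith only [h2]) (by linarith only [hu])
    have h5 : 0 ≤ (x - u) * -q v := mul_nonneg (by linarith only [h1]) (by linarith only [hv])
    have h6 : 0 < (v - x) * -q u + (x - u) * -q v := by
      rcases h1.eq_or_lt with h7 | h7
      · have : 0 < (v - x) * -q u := mul_pos (by linarith only [h3, h7]) (by linarith only [hu])
        linarith only [h5, this]
      · have : 0 < (x - u) * -q v := mul_pos (by linarith only [h7]) (by linarith only [hv])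
        linarith only [h4, this]
    have h8 : (v - u) * -q x = (v - x) * -q u + (x - u) * -q v + a * ((x - u) * (v - x)) * (v - u) := by
      rw [hq, hq, hq]
      ring
    have h9 : 0 ≤ a * ((x - u) * (v - x)) * (v - u) :=
      mul_nonneg (mul_nonneg ha (mul_nonneg (by linarith only [h1]) (by linarith only [h2]))) (by linarith only [h3])
    have h10 : 0 < (v - u) * -q x := by linarith only [h6, h8, h9]
    have := (mul_pos_iff_of_pos_left (by linarith only [h3] : 0 < v - u)).1 h10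
    linarith only [this]

section tri

variable {n g γ w : ℝ}

/-- the last polygon -/
theorem triB3 {c0 : ℝ} (hn2 : 2 < n) (hn3 : n ≤ 3) (hγ : 1 ≤ γ) (hg : γ < g)
    (hN : g ^ 2 + γ ^ 2 + w ^ 2 - (n - 1) * (g * γ + g * w + γ * w) = n + 1)
    (hT : w ≤ (n - 2) * g + (n - 1) * γ) (hw : (n - 1) * γ ≤ w)
    (hA : (3 - n) * ((n * γ + c0) / 2) ^ 2 - 2 * (n - 1) * γ * ((n * γ + c0) / 2) + γ ^ 2 - (n + 1) < 0)
    (hB : (γ + c0 / n) ^ 2 - (n - 1) * n * γ * (γ + c0 / n) + γ ^ 2 - (n + 1) < 0) :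
    c0 ≤ n * g - γ - w := by
  by_contra hcon
  rw [not_le] at hcon
  obtain ⟨q, hq⟩ : ∃ q : ℝ → ℝ → ℝ, ∀ x y, q x y = x ^ 2 + γ ^ 2 + y ^ 2 - (n - 1) * (x * γ + x * y + γ * y) - (n + 1) :=
    ⟨fun x y => x ^ 2 + γ ^ 2 + y ^ 2 - (n - 1) * (x * γ + x * y + γ * y) - (n + 1), fun _ _ => rfl⟩
  have h0 : q g w = 0 := by
    rw [hq]
    linarith only [hN]
  have hγ2 : 1 ≤ γ ^ 2 := by nlinarith
  -- upper end
  have hup : q g ((n - 2) * g + (n - 1) * γ) < 0 := by
    refine conv_neg (fun x => q x ((n - 2) * x + (n - 1) * γ)) (3 - n) (-(2 * (n - 1) * γ)) (γ ^ 2 - (n + 1)) ?_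
      (by linarith only [hn3]) (u := γ) (v := (n * γ + c0) / 2) ?_ ?_ hg.le (by linarith only [hT, hcon])
    · intro x
      rw [hq]
      ring
    · rw [hq]
      have : γ ^ 2 + γ ^ 2 + ((n - 2) * γ + (n - 1) * γ) ^ 2 -
        (n - 1) * (γ * γ + γ * ((n - 2) * γ + (n - 1) * γ) + γ * ((n - 2) * γ + (n - 1) * γ)) - (n + 1) =
        -(3 * (n - 2)) * γ ^ 2 - (n + 1) := by ring
      rw [this]
      nlinarith only [hn2]
    · rw [hq]
      have : ((n * γ + c0) / 2) ^ 2 + γ ^ 2 + ((n - 2) * ((n * γ + c0) / 2) + (n - 1) * γ) ^ 2 -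
        (n - 1) * ((n * γ + c0) / 2 * γ + (n * γ + c0) / 2 * ((n - 2) * ((n * γ + c0) / 2) + (n - 1) * γ) +
          γ * ((n - 2) * ((n * γ + c0) / 2) + (n - 1) * γ)) - (n + 1) =
        (3 - n) * ((n * γ + c0) / 2) ^ 2 - 2 * (n - 1) * γ * ((n * γ + c0) / 2) + γ ^ 2 - (n + 1) := by ring
      rw [this]
      exact hA
  have hqB : q (γ + c0 / n) ((n - 1) * γ) < 0 := by
    rw [hq]
    have : (γ + c0 / n) ^ 2 + γ ^ 2 + ((n - 1) * γ) ^ 2 -
      (n - 1) * ((γ + c0 / n) * γ + (γ + c0 / n) * ((n - 1) * γ) + γ * ((n - 1) * γ)) - (n + 1) =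
      (γ + c0 / n) ^ 2 - (n - 1) * n * γ * (γ + c0 / n) + γ ^ 2 - (n + 1) := by ring
    rw [this]
    exact hB
  have hn0 : n ≠ 0 := by linarith only [hn2]
  have fin : ∀ y, q g y < 0 → y ≤ w → False := by
    intro y hy1 hy2
    have := conv_neg (fun y => q g y) 1 (-((n - 1) * (g + γ))) (g ^ 2 + γ ^ 2 - (n - 1) * (g * γ) - (n + 1)) (by
      intro x
      rw [hq]
      ring) zero_le_one hy1 hup hy2 hT
    linarith only [h0, this]
  rcases le_total (n * g - γ - c0) ((n - 1) * γ) with h1 | h1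
  · refine fin ((n - 1) * γ) ?_ hw
    refine conv_neg (fun x => q x ((n - 1) * γ)) 1 (-((n - 1) * n * γ)) (γ ^ 2 - (n + 1)) ?_ zero_le_one
      (u := γ) (v := γ + c0 / n) ?_ hqB hg.le ?_
    · intro x
      rw [hq]
      ring
    · rw [hq]
      have : γ ^ 2 + γ ^ 2 + ((n - 1) * γ) ^ 2 - (n - 1) * (γ * γ + γ * ((n - 1) * γ) + γ * ((n - 1) * γ)) -
        (n + 1) = -((n - 2) * (n + 1)) * γ ^ 2 - (n + 1) := by ring
      rw [this]
      have : 0 ≤ (n - 2) * (n + 1) * γ ^ 2 := mul_nonneg (mul_nonneg (by linarith only [hn2]) (by linarith only [hn2])) (sq_nonneg _)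
      linarith only [hn2, this]
    · have : g - γ ≤ c0 / n := by
        rw [le_div_iff₀ (by linarith only [hn2])]
        linarith only [h1]
      linarith only [this]
  · refine fin (n * g - γ - c0) ?_ (by linarith only [hcon])
    refine conv_neg (fun x => q x (n * x - γ - c0)) (n + 1)
      (-(2 * n * (γ + c0)) - (n - 1) * (γ - γ - c0 + n * γ))
      ((γ + c0) ^ 2 + γ ^ 2 + (n - 1) * γ * (γ + c0) - (n + 1)) ?_ (by linarith only [hn2])
      (u := γ + c0 / n) (v := (n * γ + c0) / 2) ?_ ?_ ?_ ?_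
    · intro x
      rw [hq]
      ring
    · have : n * (γ + c0 / n) - γ - c0 = (n - 1) * γ := by
        field_simp
        ring
      rw [this]
      exact hqB
    · rw [hq]
      have : ((n * γ + c0) / 2) ^ 2 + γ ^ 2 + (n * ((n * γ + c0) / 2) - γ - c0) ^ 2 -
        (n - 1) * ((n * γ + c0) / 2 * γ + (n * γ + c0) / 2 * (n * ((n * γ + c0) / 2) - γ - c0) +
          γ * (n * ((n * γ + c0) / 2) - γ - c0)) - (n + 1) =
        (3 - n) * ((n * γ + c0) / 2) ^ 2 - 2 * (n - 1) * γ * ((n * γ + c0) / 2) + γ ^ 2 - (n + 1) := by ring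
      rw [this]
      exact hA
    · have : c0 / n ≤ g - γ := by
        rw [div_le_iff₀ (by linarith only [hn2])]
        linarith only [h1]
      linarith only [this]
    · linarith only [hT, hcon]

/-- **Lemma M** -/
theorem lemM (hE : 0 ≤ n ^ 2 - 2 * n - 1) (hn0 : 0 < n) (hγ : 1 ≤ γ) (hg : γ < g) (hw : 1 ≤ w)
    (hN : g ^ 2 + γ ^ 2 + w ^ 2 - (n - 1) * (g * γ + g * w + γ * w) = n + 1) (hQ : g ≤ (n - 1) * (γ + w))
    (hT : w ≤ (n - 2) * g + (n - 1) * γ) : 2 * (n + 1) ≤ n * g - γ - w := by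
  have hn : 2.4142 ≤ n := by nlinarith only [hE, hn0]
  obtain ⟨g', hg'⟩ : ∃ g', g' = (n - 1) * (γ + w) - g := ⟨_, rfl⟩
  have hg'0 : 0 ≤ g' := by linarith only [hQ, hg']
  have hΘ : g * g' = γ ^ 2 + w ^ 2 - (n - 1) * γ * w - (n + 1) := by
    rw [hg']
    linear_combination -hN
  have hγg' : γ * g' ≤ g * g' := mul_le_mul_of_nonneg_right hg.le hg'0
  have hgoal : n * g - γ - w - 2 * (n + 1) = (n ^ 2 - n - 1) * (γ + w) - n * g' - 2 * (n + 1) := by
    rw [hg']
    ring
  rcases le_or_gt w γ with hwγ | hwγ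
  · -- case A
    have hww : w * w ≤ γ * w := mul_le_mul_of_nonneg_right hwγ (by linarith only [hw])
    have hgγ : g' < γ := by
      by_contra hcon
      rw [not_lt] at hcon
      have h1 : γ * γ ≤ γ * g' := mul_le_mul_of_nonneg_left hcon (by linarith only [hγ])
      have h2 : 1 * (γ * w) ≤ (n - 1) * (γ * w) :=
        mul_le_mul_of_nonneg_right (by linarith only [hn]) (mul_nonneg (by linarith only [hγ]) (by linarith only [hw]))
      nlinarith only [hn, hΘ, hγg', hww, h1]
    have hS : 0 < (γ - g') * (g - γ) := mul_pos (by linarith only [hgγ]) (by linarith only [hg])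
    have hS2 : (γ - g') * (g - γ) = (n - 3) * γ ^ 2 + 2 * (n - 1) * γ * w - w ^ 2 + (n + 1) := by
      have : (γ - g') * (g - γ) = γ * (g + g') - γ ^ 2 - g * g' := by ring
      rw [this, hΘ, hg']
      ring
    have h1 : n * (γ * g') ≤ n * (γ ^ 2 + w ^ 2 - (n - 1) * γ * w - (n + 1)) := by
      rw [← hΘ]
      exact mul_le_mul_of_nonneg_left hγg' hn0.le
    -- rest at `w = 1`
    have hr1 : 0 < 9 * γ ^ 2 - 4 * γ + 10 * n ^ 2 - 3 * n + (γ ^ 2 + 2 * γ) * (10 * n ^ 2 - 23 * n - 10) := by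
      have h2 : -7.244 ≤ 10 * n ^ 2 - 23 * n - 10 := by nlinarith only [hn]
      have h3 : 51.04 ≤ 10 * n ^ 2 - 3 * n := by nlinarith only [hn]
      have h4 : (γ ^ 2 + 2 * γ) * -7.244 ≤ (γ ^ 2 + 2 * γ) * (10 * n ^ 2 - 23 * n - 10) :=
        mul_le_mul_of_nonneg_left h2 (by positivity)
      nlinarith only [h3, h4, sq_nonneg (γ - 5.264)]
    have hr2 : 0 ≤ (w - 1) * ((10 * (2 * n ^ 2 - 2 * n - 1) - 6 * (n - 1)) * γ - (10 * n - 3) * (w + 1)) := by
      refine mul_nonneg (by linarith only [hw]) ?_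
      have h2 : (10 * n - 3) * (w + 1) ≤ (10 * n - 3) * (2 * γ) :=
        mul_le_mul_of_nonneg_left (by linarith only [hw, hwγ]) (by linarith only [hn])
      have h3 : 0 ≤ (10 * (2 * n ^ 2 - 2 * n - 1) - 6 * (n - 1) - 2 * (10 * n - 3)) * γ :=
        mul_nonneg (by nlinarith only [hn]) (by linarith only [hγ])
      linarith only [h2, h3]
    have hF : 0 < γ * (n * g - γ - w - 2 * (n + 1)) := by
      rw [hgoal]
      nlinarith only [hS, hS2, h1, hr1, hr2]
    have := (mul_pos_iff_of_pos_left (by linarith only [hγ] : 0 < γ)).1 hF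
    linarith only [this]
  · rcases le_or_gt w ((n - 1) * γ) with h1 | h1
    · -- case B1
      have h2 : w * w ≤ (n - 1) * γ * w := mul_le_mul_of_nonneg_right h1 (by linarith only [hw])
      have h3 : n * (γ * g') ≤ n * (γ ^ 2 - (n + 1)) := mul_le_mul_of_nonneg_left (by nlinarith only [hΘ, hγg', h2]) hn0.le
      have h4 : (n ^ 2 - n - 1) * γ * γ ≤ (n ^ 2 - n - 1) * γ * w :=
        mul_le_mul_of_nonneg_left hwγ.le (mul_nonneg (by nlinarith only [hn]) (by linarith only [hγ]))
      have h5 : 0 ≤ (n ^ 2 - 2 * n - 1) * γ ^ 2 := mul_nonneg hE (sq_nonneg _)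
      have h6 : 0 < n * (n * γ ^ 2 - 2 * (n + 1) * γ + n * (n + 1)) := by
        have : n * (n * γ ^ 2 - 2 * (n + 1) * γ + n * (n + 1)) = (n * γ - (n + 1)) ^ 2 + (n + 1) * (n ^ 2 - n - 1) := by
          ring
        rw [this]
        have : 0 < (n + 1) * (n ^ 2 - n - 1) := mul_pos (by linarith only [hn]) (by nlinarith only [hn])
        positivity
      have h7 := (mul_pos_iff_of_pos_left hn0).1 h6
      have hF : 0 < γ * (n * g - γ - w - 2 * (n + 1)) := by
        rw [hgoal]
        nlinarith only [h3, h4, h5, h7]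
      have := (mul_pos_iff_of_pos_left (by linarith only [hγ] : 0 < γ)).1 hF
      linarith only [this]
    · rcases le_or_gt n 3 with hn3 | hn3
      · -- case B3
        refine triB3 (by linarith only [hn]) hn3 hγ hg hN hT h1.le ?_ ?_
        · have e : (3 - n) * ((n * γ + 2 * (n + 1)) / 2) ^ 2 - 2 * (n - 1) * γ * ((n * γ + 2 * (n + 1)) / 2) + γ ^ 2 -
              (n + 1) = (n + 1) * (-((n ^ 2 - 4) / 4) * γ ^ 2 - (n - 2) * (n + 1) * γ + (2 + 2 * n - n ^ 2)) := by
            ring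
          rw [e]
          have h2 : (n ^ 2 - 4) / 4 * 1 ≤ (n ^ 2 - 4) / 4 * γ ^ 2 :=
            mul_le_mul_of_nonneg_left (by nlinarith only [hγ]) (by nlinarith only [hn])
          have h3 : (n - 2) * (n + 1) * 1 ≤ (n - 2) * (n + 1) * γ :=
            mul_le_mul_of_nonneg_left hγ (mul_nonneg (by linarith only [hn]) (by linarith only [hn]))
          have h4 : -((n ^ 2 - 4) / 4) * γ ^ 2 - (n - 2) * (n + 1) * γ + (2 + 2 * n - n ^ 2) < 0 := by nlinarith only [hE, hγ, hn]
          exact mul_neg_of_pos_of_neg (by linarith only [hn]) h4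
        · have hn0' : n ≠ 0 := by linarith only [hn]
          have e : (γ + 2 * (n + 1) / n) ^ 2 - (n - 1) * n * γ * (γ + 2 * (n + 1) / n) + γ ^ 2 - (n + 1) =
              (n + 1) / n ^ 2 * (-((n - 2) * n ^ 2 * γ ^ 2) - 2 * (n + 1) * (n - 2) * n * γ + (4 * n + 4 - n ^ 2)) := by
            field_simp
            ring
          rw [e]
          have h2 : (n - 2) * n ^ 2 * 1 ≤ (n - 2) * n ^ 2 * γ ^ 2 :=
            mul_le_mul_of_nonneg_left (by nlinarith only [hγ]) (mul_nonneg (by linarith only [hn]) (sq_nonneg _))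
          have h3 : 2 * (n + 1) * (n - 2) * n * 1 ≤ 2 * (n + 1) * (n - 2) * n * γ :=
            mul_le_mul_of_nonneg_left hγ (by
              have : 0 ≤ (n + 1) * (n - 2) := mul_nonneg (by linarith only [hn]) (by linarith only [hn])
              have := mul_nonneg this hn0.le
              linarith only [this])
          have h5 : 0 ≤ (n - 2) * (n ^ 2 - 2 * n - 1) := mul_nonneg (by linarith only [hn]) hE
          have h6 : 0 ≤ n * (n ^ 2 - 2 * n - 1) := mul_nonneg hn0.le hE
          have h4 : -((n - 2) * n ^ 2 * γ ^ 2) - 2 * (n + 1) * (n - 2) * n * γ + (4 * n + 4 - n ^ 2) < 0 := by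
            nlinarith only [hn, h2, h3]
          exact mul_neg_of_pos_of_neg (by positivity) h4
      · -- case B2
        have hwn : n ≤ w := by
          by_contra hcon
          rw [not_le] at hcon
          have h2 : 0 ≤ (γ - 1) * ((n - 1) * w - γ - 1) := by
            refine mul_nonneg (by linarith only [hγ]) ?_
            have h3 : 2 * γ ≤ (n - 1) * γ := mul_le_mul_of_nonneg_right (by linarith only [hn3]) (by linarith only [hγ])
            have h4 : 1 * w ≤ (n - 1) * w := mul_le_mul_of_nonneg_right (by linarith only [hn3]) (by linarith only [hw])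
            linarith only [hγ, h1, h3, h4]
          have h3 : 0 ≤ g * g' := mul_nonneg (by linarith only [hγ, hg]) hg'0
          have h4 : (w - n) * (w + 1) < 0 := mul_neg_of_neg_of_pos (by linarith only [hcon]) (by linarith only [hw])
          nlinarith only [hΘ, h2, h3, h4]
        have h2 : g' ≤ γ + (n - 2) * w := by
          have h3 : γ * γ ≤ γ * g := mul_le_mul_of_nonneg_left hg.le (by linarith only [hγ])
          have h4 : w * (w - (n - 1) * γ) ≤ w * ((n - 2) * g) := mul_le_mul_of_nonneg_left (by linarith only [hT]) (by linarith only [hn3, hwn])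
          have h5 : g * g' ≤ g * (γ + (n - 2) * w) := by
            rw [hΘ]
            nlinarith only [hn3, h3, h4]
          exact le_of_mul_le_mul_left h5 (by linarith only [hγ, hg])
        have h3 : n * g' ≤ n * (γ + (n - 2) * w) := mul_le_mul_of_nonneg_left h2 hn0.le
        have h4 : (n - 1) * n ≤ (n - 1) * w := mul_le_mul_of_nonneg_left hwn (by linarith only [hn3])
        have h5 : (n ^ 2 - 2 * n - 1) * 1 ≤ (n ^ 2 - 2 * n - 1) * γ := mul_le_mul_of_nonneg_left hγ hE
        have h6 : 0 ≤ n * g - γ - w - 2 * (n + 1) := by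
          rw [hgoal]
          nlinarith only [hn3, h3, h4, h5]
        linarith only [h6]

end tri

end Pool.Agent.Helper59.DY
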