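import Pool.Agent.Helper62.DY.NG0
import Pool.Agent.Helper9.DY.NG
import Pool.Agent.Helper23.DY.F1
import Pool.Agent.Helper54.DY.Det3

/-!
# `F` beyond `V_2`, statement without the chamber (MP_d13a5e_al)

`Cf b1 b2 bO R g x1 x2 f1 f2 r1 r2`: `R` is the set of the coefficient triples of the roots, `x = (g, x1, x2)` a root,
`f1, f2` the values of `φ` at `d1, d2`, `r1, r2` those of the centre.
-/

set_option autoImplicit false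

namespace Pool.Agent.Helper59.DY

open _root_.DY (Z1 sq Str Beyond)
open Pool.Agent.Helper62.DY (RT)

/-- the data of the root `x_R` at the vertex of `t` and `d2` -/
structure Cf (b1 b2 bO : ℝ) (R : ℝ → ℝ → ℝ → Prop) (g x1 x2 f1 f2 r1 r2 : ℝ) : Prop where
  rt : RT b1 b2 bO R
  rx : R g x1 x2
  g1 : 1 ≤ g
  p1 : 1 ≤ x1
  p2 : 1 ≤ x2
  hf1 : 0 ≤ f1
  hf2 : f2 < 0
  fz : g + x1 * f1 + x2 * f2 = 0
  /-- `x` and `t` are canonical -/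
  cR : 0 ≤ b1 * x1 + b2 * x2 - g
  /-- helper23's C0 -/
  C0 : -f2 * (b1 * x1 + b2 * x2 - g) < x2 - b2 * g - bO * x1
  /-- helper23's quad_pos -/
  qp : 0 < 1 + f2 ^ 2 + 2 * b2 * f2
  st : ∀ a1 a2 : ℝ, R 0 a1 a2 → 0 ≤ a1 → 0 < a2 →
    Str (a1 * b1 + a2 * b2) (a1 * f1 + a2 * f2) (a1 * r1 + a2 * r2)
  /-- `x` and `t` are canonical (helper62's canon_neg) -/
  cn : ∀ α β : ℝ, 0 < α → β < 0 → R (α * g + β) (α * x1) (α * x2) → False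
  /-- reflection in an `O`-root (helper62's refl_O) -/
  ro : ∀ a1 a2 y0 y1 y2 : ℝ, R 0 a1 a2 → R y0 y1 y2 →
    R y0 (y1 + (2 * (b1 * a1 + b2 * a2) * y0 - 2 * (a1 - bO * a2) * y1 - 2 * (a2 - bO * a1) * y2) * a1)
      (y2 + (2 * (b1 * a1 + b2 * a2) * y0 - 2 * (a1 - bO * a2) * y1 - 2 * (a2 - bO * a1) * y2) * a2)
  /-- no root of the plane of `t` and `d2` vanishes at `F` -/
  nz : ∀ n, 0 < sq b2 (n + 1) → sq b2 (n + 1) * f2 + sq b2 n ≠ 0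
  /-- helper54's DET -/
  dt : ∀ y0 y1 y2 z0 z1 z2 : ℝ, R y0 y1 y2 → R z0 z1 z2 →
    g * (y1 * z2 - y2 * z1) - x1 * (y0 * z2 - y2 * z0) + x2 * (y0 * z1 - y1 * z0) = 0 ∨
    1 ≤ |g * (y1 * z2 - y2 * z1) - x1 * (y0 * z2 - y2 * z0) + x2 * (y0 * z1 - y1 * z0)|
  le : g + x1 * r1 + x2 * r2 ≤ 1

/-- `F` beyond `V_2`, `b2 ≥ 1/2`: impossible -/
def NGbI : Prop :=
  ∀ (b1 b2 bO : ℝ) (R : ℝ → ℝ → ℝ → Prop) (g x1 x2 f1 f2 r1 r2 be1 be2 : ℝ),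
    Cf b1 b2 bO R g x1 x2 f1 f2 r1 r2 → Beyond b2 f2 → 1 ≤ 2 * b2 →
    R 0 be1 be2 → 1 ≤ be1 → be1 * f1 + be2 * f2 < 0 → x1 * be2 ≤ x2 * be1 → False

end Pool.Agent.Helper59.DY
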